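import Pool.Agent.H50.SF.Hat

/-!
# SF.Const : the constants for the instance (385, 478), w = 1/4, (helper55)
-/

namespace Pool.Agent.H50.SF

/-- the constants -/
def cst : Cst where
  kpr := 2
  kgam := 1001 / 1000
  ky0 := 330
  ky1 := 7
  ky2 := 21
  kz0 := 84
  kz1 := 8
  kz2 := 11 / 2
  kl0 := 84
  kl1 := 8
  kl2 := 11 / 2
  kb := 109 / 100
  kzb := 275 / 1000
  klb := 43 / 1000
  kch := 1
  kch1 := 12
  kkap := 123 / 10
  kq3 := 2526 / 10000
  kp := 2502 / 10000
  ksi := 1 / 1210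
  ka := 1
  t0 := 16 / 100000
  sg := 60
  ry := 5 / 4
  rh := 7 / 30
  th := 7 / 20
  mE := 832

theorem cst_good : cst.Good := by decide +kernel

/-- the quadratic part of `y`: `‖y E - b‖ ≤ 832 |E|` in hat variables -/
theorem cst_tr : cst.tr.s ≤ 832 := by decide +kernel

theorem cst_tN : cst.tN.s ≤ 14 := by decide +kernel

theorem cst_tz : cst.tz.s ≤ 5 / 16 := by decide +kernel

theorem cst_tl : cst.tl.s ≤ 1 / 12 := by decide +kernel

theorem cst_tys : cst.tys.s ≤ 2 / 5 := by decide +kernel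

theorem cst_td : cst.td.s ≤ 31 / 2 := by decide +kernel

end Pool.Agent.H50.SF
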