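import Pool.Agent.H50.SF.Calc

/-!
# SF.Eval : evaluation of the nonlinearity in rational triples

`Tr` : rational triples (size, Lipschitz constant, Lipschitz constant in the parameter), with the rules of dual numbers; `Bt B I T q` : the map `q` has the bounds `T`.
`N2` : the nonlinearity of the second equation of the pair form, `N2t` its evaluation in `Tr`.
-/

namespace Pool.Agent.H50.SF

/-- rational triples -/
@[ext] structure Tr where
  s : ℚ
  l : ℚ
  m : ℚ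

instance : Add Tr := ⟨fun a b => ⟨a.s + b.s, a.l + b.l, a.m + b.m⟩⟩
instance : Mul Tr := ⟨fun a b => ⟨a.s * b.s, a.l * b.s + a.s * b.l, a.m * b.s + a.s * b.m⟩⟩

/-- constants -/
def Tr.c (q : ℚ) : Tr := ⟨q, 0, 0⟩

/-- componentwise comparison -/
def Tr.Le (a b : Tr) : Prop := a.s ≤ b.s ∧ a.l ≤ b.l ∧ a.m ≤ b.m

instance (a b : Tr) : Decidable (Tr.Le a b) := by
  unfold Tr.Le
  infer_instance

theorem Tr.add_s (a b : Tr) : (a + b).s = a.s + b.s := rfl
theorem Tr.add_l (a b : Tr) : (a + b).l = a.l + b.l := rfl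
theorem Tr.add_m (a b : Tr) : (a + b).m = a.m + b.m := rfl
theorem Tr.mul_s (a b : Tr) : (a * b).s = a.s * b.s := rfl
theorem Tr.mul_l (a b : Tr) : (a * b).l = a.l * b.s + a.s * b.l := rfl
theorem Tr.mul_m (a b : Tr) : (a * b).m = a.m * b.s + a.s * b.m := rfl

section

variable {X A A' A'' : Type*} [NormedAddCommGroup X] [NormedAddCommGroup A] [NormedAddCommGroup A'] [NormedAddCommGroup A'']
  {B : Set X} {I : Set ℝ} {T T' : Tr} {q q' : X → ℝ → A}

/-- the map `q` has the bounds `T` -/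
def Bt (B : Set X) (I : Set ℝ) (T : Tr) (q : X → ℝ → A) : Prop := Bq B I (T.s : ℝ) (T.l : ℝ) (T.m : ℝ) q

theorem Bt.le (h : Bt B I T q) (h' : Tr.Le T T') : Bt B I T' q :=
  Bq.mono h (by exact_mod_cast h'.1) (by exact_mod_cast h'.2.1) (by exact_mod_cast h'.2.2)

theorem Bt.const {a : A} {r : ℚ} (h : ‖a‖ ≤ r) : Bt B I (Tr.c r) (fun _ _ => a) := by
  have h2 := Bq.const (B := B) (I := I) h
  unfold Bt Tr.c
  simpa using h2

theorem Bt.neg (h : Bt B I T q) : Bt B I T (fun u E => -q u E) := Bq.neg h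

theorem Bt.add (h : Bt B I T q) (h' : Bt B I T' q') : Bt B I (T + T') (fun u E => q u E + q' u E) := by
  have h2 := Bq.add h h'
  unfold Bt
  rw [Tr.add_s, Tr.add_l, Tr.add_m]
  push_cast
  exact h2

theorem Bt.sub (h : Bt B I T q) (h' : Bt B I T' q') : Bt B I (T + T') (fun u E => q u E - q' u E) := by
  have h2 := Bq.sub h h'
  unfold Bt
  rw [Tr.add_s, Tr.add_l, Tr.add_m]
  push_cast
  exact h2

theorem Bt.smul [NormedSpace ℝ A] {r : ℝ} {c : ℚ} (hr : |r| ≤ c) (h : Bt B I T q) : Bt B I (Tr.c c * T) (fun u E => r • q u E) := by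
  have h2 := Bq.smul hr h
  unfold Bt
  rw [Tr.mul_s, Tr.mul_l, Tr.mul_m]
  unfold Tr.c
  push_cast
  simpa using h2

/-- additive bounded maps -/
theorem Bt.map {F : A → A'} {c : ℚ} (hc : 0 ≤ c) (hs : ∀ a b, F (a - b) = F a - F b) (hF : ∀ a, ‖F a‖ ≤ c * ‖a‖)
    (h : Bt B I T q) : Bt B I (Tr.c c * T) (fun u E => F (q u E)) := by
  have h2 := Bq.map (c := (c : ℝ)) (by exact_mod_cast hc) hs hF h
  unfold Bt
  rw [Tr.mul_s, Tr.mul_l, Tr.mul_m]
  unfold Tr.c
  push_cast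
  simpa using h2

/-- bounded biadditive maps -/
theorem Bt.bilin {p : X → ℝ → A} {p' : X → ℝ → A'} {G : A → A' → A''} {c : ℚ} (hc : 0 ≤ c)
    (h1 : ∀ a b x, G (a - b) x = G a x - G b x) (h2 : ∀ a x y, G a (x - y) = G a x - G a y) (hG : ∀ a x, ‖G a x‖ ≤ c * (‖a‖ * ‖x‖))
    (h : Bt B I T p) (h' : Bt B I T' p') : Bt B I (Tr.c c * (T * T')) (fun u E => G (p u E) (p' u E)) := by
  have h3 := Bq.bilin (c := (c : ℝ)) (by exact_mod_cast hc) h1 h2 hG h h'
  unfold Bt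
  rw [Tr.mul_s, Tr.mul_l, Tr.mul_m, Tr.mul_s, Tr.mul_l, Tr.mul_m]
  unfold Tr.c
  push_cast
  simpa using h3

end

section ring

variable {X R : Type*} [NormedAddCommGroup X] [NormedCommRing R] {B : Set X} {I : Set ℝ} {T T' : Tr} {p p' : X → ℝ → R}

theorem Bt.mul (h : Bt B I T p) (h' : Bt B I T' p') : Bt B I (T * T') (fun u E => p u E * p' u E) := by
  have h2 := Bq.mul h h'
  unfold Bt
  rw [Tr.mul_s, Tr.mul_l, Tr.mul_m]
  push_cast
  exact h2

variable [NormedAlgebra ℝ R]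

/-- the nonlinearity of the second equation: `ep = e / s`, `e = chi y`, `d = chi' y + chi y_s`, `ay = a y` -/
noncomputable def N2a (q3 p kap c si y ys z lz G e d ep ay : R) : R :=
  (ep + ep + ep * ep) * (q3 * e - ys + (z + p * e)) +
    (1 + ep) * (1 + ep) * (d * (z + p * e) - (1 / 2 : ℝ) • ((1 + d) * (ay * e))) -
    (si + si) * ((ep + d + ep * d) * (ay + p * ep)) + d * lz + c * ((1 + kap * y) * G)

/-- the same in triples -/
def N2t (q3 p kap c si y ys z lz G e d ep ay : Tr) : Tr :=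
  (ep + ep + ep * ep) * (q3 * e + ys + (z + p * e)) +
    (Tr.c 1 + ep) * (Tr.c 1 + ep) * (d * (z + p * e) + Tr.c (1 / 2) * ((Tr.c 1 + d) * (ay * e))) +
    (si + si) * ((ep + d + ep * d) * (ay + p * ep)) + d * lz + c * ((Tr.c 1 + kap * y) * G)

theorem Bt.N2a [NormOneClass R] {Tq Tp Tk Tc Ti Ty Tys Tz Tlz TG Te Td Tep Tay : Tr} {q3 pp kap c si y ys z lz G e d ep ay : X → ℝ → R}
    (hq3 : Bt B I Tq q3) (hp : Bt B I Tp pp) (hk : Bt B I Tk kap) (hc : Bt B I Tc c) (hi : Bt B I Ti si) (hy : Bt B I Ty y)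
    (hys : Bt B I Tys ys) (hz : Bt B I Tz z) (hlz : Bt B I Tlz lz) (hG : Bt B I TG G) (he : Bt B I Te e) (hd : Bt B I Td d)
    (hep : Bt B I Tep ep) (hay : Bt B I Tay ay) :
    Bt B I (N2t Tq Tp Tk Tc Ti Ty Tys Tz Tlz TG Te Td Tep Tay) (fun u E => SF.N2a (q3 u E) (pp u E) (kap u E) (c u E) (si u E) (y u E)
      (ys u E) (z u E) (lz u E) (G u E) (e u E) (d u E) (ep u E) (ay u E)) := by
  have h1 : Bt B I (Tr.c 1) (fun (_ : X) (_ : ℝ) => (1 : R)) := Bt.const (by rw [norm_one]; norm_num)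
  have hpe := hz.add (hp.mul he)
  have t1 := ((hep.add hep).add (hep.mul hep)).mul (((hq3.mul he).sub hys).add hpe)
  have t2 := ((h1.add hep).mul (h1.add hep)).mul
    ((hd.mul hpe).sub (((h1.add hd).mul (hay.mul he)).smul (r := 1 / 2) (c := 1 / 2) (by norm_num [abs_of_pos])))
  have t3 := (hi.add hi).mul (((hep.add hd).add (hep.mul hd)).mul (hay.add (hp.mul hep)))
  have t4 := hd.mul hlz
  have t5 := hc.mul ((h1.add (hk.mul hy)).mul hG)
  exact (((t1.add t2).sub t3).add t4).add t5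

end ring

end Pool.Agent.H50.SF
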