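import Pool.Agent.H50.SF.Const
import Pool.Agent.H27.Leg.Ring
import Pool.Agent.H37.SG.GOp
import Pool.Agent.H94.SF.FamDef
import Pool.Agent.H94.SF.N2a

/-!
# SF.Conc : the specification of the concrete data

`Spec` : what the concrete `Dat` (spaces `W (LC R0 rho) w1`, `W (LC R0 rho) w0`) has to satisfy, in terms of the modes `co f k` and of the values.
`Fam` is deduced from it in `SF.Fam`.
-/

open Pool.Agent.H27.Leg

namespace Pool.Agent.H50.SF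

/-- the functions on the layer -/
abbrev L0 : Type := SG.LC SF.R0 SF.rho

/-- the layer as a type -/
abbrev S0 : Type := Set.Icc SF.R0 SF.rho

theorem h0 : SF.R0 ≤ SF.rho := by
  unfold SF.R0 SF.wd
  linarith

/-- the inner end of the layer -/
noncomputable def sR : S0 := ⟨SF.R0, Set.left_mem_Icc.2 h0⟩

/-- the outer end of the layer -/
noncomputable def sr : S0 := ⟨SF.rho, Set.right_mem_Icc.2 h0⟩

/-- the specification of the concrete data -/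
structure Spec (w0 w1 : ℕ → ℝ) [Fact (Wt w0)] (D : Dat (W L0 w1) (W L0 w0)) (nu1 : ℝ) (kapx : ℝ → ℝ) : Prop where
  hnu : SF.nu < nu1
  hw0 : ∀ k, w0 k = nu1 ^ k
  hw01 : ∀ k, w0 k ≤ w1 k
  kap_cont : Continuous kapx
  hkap : ∀ s ∈ SF.I0, kapx s = SF.kap s
  kap_le : ∀ s ∈ SF.I0, |kapx s / 2| ≤ 7
  inc : ∀ f k, co (D.inc f) k = co f k
  /-- the Green operators, even modes -/
  green : ∀ (g : W L0 w1) (f : W L0 w0) (k : ℕ), Even k → ∃ z y : ℝ → ℝ,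
    SG.PSol ((k : ℝ) * (k + 1)) (fun t => kapx t / 2 * SG.ext h0 (co g k) t) (SG.ext h0 (co f k)) z y ∧
      (∀ s : S0, z s = co (D.z1 g + D.z2 f) k s) ∧ (∀ s : S0, y s = co (D.y1 g + D.y2 f) k s) ∧ z SF.rho = 0 ∧
      (k ≠ SF.ell → y SF.R0 * Pool.Agent.H68.SC.jl k SF.R0 = -(z SF.R0 * Pool.Agent.H68.SC.djl k SF.R0)) ∧ (k = SF.ell → y SF.rho = 0)
  high : ∀ (g : W L0 w1) (f : W L0 w0) (k : ℕ), 1212 ≤ k → ‖co (D.y1 g + D.y2 f) k‖ ≤ 7 * ‖co g k‖ + 2 * ‖co f k‖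
  /-- the resonant mode -/
  base : ∀ k, k ≠ SF.ell → co D.b k = 0 ∧ co D.zb k = 0
  base' : ∃ z y : ℝ → ℝ, SG.PSol ((SF.ell : ℝ) * (SF.ell + 1)) (fun _ => 0) (fun _ => 0) z y ∧
    (∀ s : S0, z s = co D.zb SF.ell s) ∧ (∀ s : S0, y s = co D.b SF.ell s) ∧ z SF.rho = 0 ∧ y SF.rho = 1
  lz : ∀ (g : W L0 w1) (f : W L0 w0) (k : ℕ) (s : S0), co (D.l1 g + D.l2 f) k s = -(SF.lam k / (s : ℝ) ^ 2) * co (D.z1 g + D.z2 f) k s
  lb : ∀ (k : ℕ) (s : S0), co D.lb k s = -(SF.lam k / (s : ℝ) ^ 2) * co D.zb k s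
  si : ∀ (f : W L0 w0) (k : ℕ) (s : S0), co (D.si * f) k s = 1 / (s : ℝ) * co f k s
  /-- values -/
  val : ∀ (s : S0) (x : ℝ), x ∈ SF.X0 → ∃ φ : W L0 w0 →ₐ[ℝ] ℝ, ∀ f, φ f = SF.ev (fun k => co f k s) x
  gam : ∀ (s : S0) (x : ℝ), x ∈ SF.X0 → ∀ f : W L0 w1,
    SF.ev (fun k => co (D.gam f f) k s) x = (1 - x ^ 2) * SF.ev1 (fun k => co f k s) x ^ 2 / (s : ℝ) ^ 2
  v_ch : ∀ (s : S0) (x : ℝ), x ∈ SF.X0 → SF.ev (fun k => co D.ch k s) x = SF.chi s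
  v_ch1 : ∀ (s : S0) (x : ℝ), x ∈ SF.X0 → SF.ev (fun k => co D.ch1 k s) x = SF.chi1 s
  v_kap : ∀ (s : S0) (x : ℝ), x ∈ SF.X0 → SF.ev (fun k => co D.kap k s) x = SF.kap s
  v_q3 : ∀ (s : S0) (x : ℝ), x ∈ SF.X0 → SF.ev (fun k => co D.q3 k s) x = SF.v3 s
  v_p : ∀ (s : S0) (x : ℝ), x ∈ SF.X0 → SF.ev (fun k => co D.p k s) x = SF.v1 s
  v_si : ∀ (s : S0) (x : ℝ), x ∈ SF.X0 → SF.ev (fun k => co D.si k s) x = 1 / (s : ℝ)
  v_a : ∀ (s : S0) (x : ℝ), x ∈ SF.X0 → SF.ev (fun k => co D.a k s) x = SF.aa s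
  /-- the coefficients at the inner end form a ring homomorphism, and the cut-off vanishes there -/
  r0 : ∃ ψ : W L0 w0 →ₐ[ℝ] W ℝ w0, ∀ f k, co (ψ f) k = co f k sR
  ch_R0 : ∀ k, co D.ch k sR = 0
  ch1_R0 : ∀ k, co D.ch1 k sR = 0

end Pool.Agent.H50.SF
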