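import Mathlib

/-!
# SF.Calc : calculus of size and Lipschitz bounds, fixed point with a parameter

`Bq B I S L M q`: for `u, v` in `B`, `E, E'` in `I`: `‖q u E‖ ≤ S`, `‖q u E - q v E‖ ≤ L ‖u - v‖`, `‖q u E - q u E'‖ ≤ M |E - E'|`.
-/

namespace Pool.Agent.H50.SF

variable {X A A' A'' : Type*} [NormedAddCommGroup X] [NormedAddCommGroup A] [NormedAddCommGroup A'] [NormedAddCommGroup A'']

/-- size and Lipschitz bounds of a map depending on a parameter -/
structure Bq (B : Set X) (I : Set ℝ) (S L M : ℝ) (q : X → ℝ → A) : Prop where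
  sz : ∀ u ∈ B, ∀ E ∈ I, ‖q u E‖ ≤ S
  lip : ∀ u ∈ B, ∀ v ∈ B, ∀ E ∈ I, ‖q u E - q v E‖ ≤ L * ‖u - v‖
  lipE : ∀ u ∈ B, ∀ E ∈ I, ∀ E' ∈ I, ‖q u E - q u E'‖ ≤ M * |E - E'|

variable {B : Set X} {I : Set ℝ} {S L M S' L' M' : ℝ} {q q' : X → ℝ → A}

theorem Bq.mono (h : Bq B I S L M q) (hS : S ≤ S') (hL : L ≤ L') (hM : M ≤ M') : Bq B I S' L' M' q where
  sz u hu E hE := (h.sz u hu E hE).trans hS
  lip u hu v hv E hE := (h.lip u hu v hv E hE).trans (mul_le_mul_of_nonneg_right hL (norm_nonneg _))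
  lipE u hu E hE E' hE' := (h.lipE u hu E hE E' hE').trans (mul_le_mul_of_nonneg_right hM (abs_nonneg _))

theorem Bq.congr (h : Bq B I S L M q) (e : ∀ u ∈ B, ∀ E ∈ I, q' u E = q u E) : Bq B I S L M q' where
  sz u hu E hE := by rw [e u hu E hE]; exact h.sz u hu E hE
  lip u hu v hv E hE := by rw [e u hu E hE, e v hv E hE]; exact h.lip u hu v hv E hE
  lipE u hu E hE E' hE' := by rw [e u hu E hE, e u hu E' hE']; exact h.lipE u hu E hE E' hE'

theorem Bq.const {a : A} (h : ‖a‖ ≤ S) : Bq B I S 0 0 (fun _ _ => a) where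
  sz _ _ _ _ := h
  lip _ _ _ _ _ _ := by rw [sub_self, norm_zero, zero_mul]
  lipE _ _ _ _ _ _ := by rw [sub_self, norm_zero, zero_mul]

theorem Bq.neg (h : Bq B I S L M q) : Bq B I S L M (fun u E => -q u E) where
  sz u hu E hE := by rw [norm_neg]; exact h.sz u hu E hE
  lip u hu v hv E hE := by
    rw [neg_sub_neg, norm_sub_rev]
    exact h.lip u hu v hv E hE
  lipE u hu E hE E' hE' := by
    rw [neg_sub_neg, norm_sub_rev]
    exact h.lipE u hu E hE E' hE'

theorem Bq.add (h : Bq B I S L M q) (h' : Bq B I S' L' M' q') : Bq B I (S + S') (L + L') (M + M') (fun u E => q u E + q' u E) where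
  sz u hu E hE := (norm_add_le _ _).trans (add_le_add (h.sz u hu E hE) (h'.sz u hu E hE))
  lip u hu v hv E hE := by
    rw [add_sub_add_comm, add_mul]
    exact (norm_add_le _ _).trans (add_le_add (h.lip u hu v hv E hE) (h'.lip u hu v hv E hE))
  lipE u hu E hE E' hE' := by
    rw [add_sub_add_comm, add_mul]
    exact (norm_add_le _ _).trans (add_le_add (h.lipE u hu E hE E' hE') (h'.lipE u hu E hE E' hE'))

theorem Bq.sub (h : Bq B I S L M q) (h' : Bq B I S' L' M' q') : Bq B I (S + S') (L + L') (M + M') (fun u E => q u E - q' u E) :=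
  (h.add h'.neg).congr fun _ _ _ _ => sub_eq_add_neg _ _

/-- images under an additive bounded map -/
theorem Bq.map {T : A → A'} {c : ℝ} (hc : 0 ≤ c) (hs : ∀ a b, T (a - b) = T a - T b) (hT : ∀ a, ‖T a‖ ≤ c * ‖a‖)
    (h : Bq B I S L M q) : Bq B I (c * S) (c * L) (c * M) (fun u E => T (q u E)) where
  sz u hu E hE := (hT _).trans (mul_le_mul_of_nonneg_left (h.sz u hu E hE) hc)
  lip u hu v hv E hE := by
    rw [← hs, mul_assoc]
    exact (hT _).trans (mul_le_mul_of_nonneg_left (h.lip u hu v hv E hE) hc)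
  lipE u hu E hE E' hE' := by
    rw [← hs, mul_assoc]
    exact (hT _).trans (mul_le_mul_of_nonneg_left (h.lipE u hu E hE E' hE') hc)

theorem Bq.smul [NormedSpace ℝ A] {r c : ℝ} (hr : |r| ≤ c) (h : Bq B I S L M q) :
    Bq B I (c * S) (c * L) (c * M) (fun u E => r • q u E) := by
  refine h.map (T := fun a => r • a) ((abs_nonneg r).trans hr) (fun a b => smul_sub r a b) fun a => ?_
  rw [norm_smul, Real.norm_eq_abs]
  exact mul_le_mul_of_nonneg_right hr (norm_nonneg _)

/-- bounded biadditive maps -/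
theorem Bq.bilin {p : X → ℝ → A} {p' : X → ℝ → A'} {G : A → A' → A''} {c : ℝ} (hc : 0 ≤ c)
    (h1 : ∀ a b x, G (a - b) x = G a x - G b x) (h2 : ∀ a x y, G a (x - y) = G a x - G a y) (hG : ∀ a x, ‖G a x‖ ≤ c * (‖a‖ * ‖x‖))
    (h : Bq B I S L M p) (h' : Bq B I S' L' M' p') :
    Bq B I (c * (S * S')) (c * (L * S' + S * L')) (c * (M * S' + S * M')) (fun u E => G (p u E) (p' u E)) where
  sz u hu E hE := (hG _ _).trans (mul_le_mul_of_nonneg_left
    (mul_le_mul (h.sz u hu E hE) (h'.sz u hu E hE) (norm_nonneg _) ((norm_nonneg _).trans (h.sz u hu E hE))) hc)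
  lip u hu v hv E hE := by
    have e : G (p u E) (p' u E) - G (p v E) (p' v E) = G (p u E - p v E) (p' u E) + G (p v E) (p' u E - p' v E) := by
      rw [h1, h2]
      abel
    have e2 : c * (L * S' + S * L') * ‖u - v‖ = c * ((L * ‖u - v‖) * S') + c * (S * (L' * ‖u - v‖)) := by ring
    rw [e, e2]
    refine (norm_add_le _ _).trans (add_le_add ?_ ?_)
    · exact (hG _ _).trans (mul_le_mul_of_nonneg_left
        (mul_le_mul (h.lip u hu v hv E hE) (h'.sz u hu E hE) (norm_nonneg _) ((norm_nonneg _).trans (h.lip u hu v hv E hE))) hc)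
    · exact (hG _ _).trans (mul_le_mul_of_nonneg_left
        (mul_le_mul (h.sz v hv E hE) (h'.lip u hu v hv E hE) (norm_nonneg _) ((norm_nonneg _).trans (h.sz v hv E hE))) hc)
  lipE u hu E hE E' hE' := by
    have e : G (p u E) (p' u E) - G (p u E') (p' u E') = G (p u E - p u E') (p' u E) + G (p u E') (p' u E - p' u E') := by
      rw [h1, h2]
      abel
    have e2 : c * (M * S' + S * M') * |E - E'| = c * ((M * |E - E'|) * S') + c * (S * (M' * |E - E'|)) := by ring
    rw [e, e2]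
    refine (norm_add_le _ _).trans (add_le_add ?_ ?_)
    · exact (hG _ _).trans (mul_le_mul_of_nonneg_left
        (mul_le_mul (h.lipE u hu E hE E' hE') (h'.sz u hu E hE) (norm_nonneg _) ((norm_nonneg _).trans (h.lipE u hu E hE E' hE'))) hc)
    · exact (hG _ _).trans (mul_le_mul_of_nonneg_left
        (mul_le_mul (h.sz u hu E' hE') (h'.lipE u hu E hE E' hE') (norm_nonneg _) ((norm_nonneg _).trans (h.sz u hu E' hE'))) hc)

/-- an input which is linear in `u` and affine in the parameter -/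
theorem Bq.input [NormedSpace ℝ A] {T : X → A} {J : A} {c r e j : ℝ} (hc : 0 ≤ c) (hs : ∀ u v, T (u - v) = T u - T v)
    (hT : ∀ u, ‖T u‖ ≤ c * ‖u‖) (hB : ∀ u ∈ B, ‖u‖ ≤ r) (hI : ∀ E ∈ I, |E| ≤ e) (hJ : ‖J‖ ≤ j) (he : 0 ≤ e) :
    Bq B I (c * r + e * j) c j (fun u E => T u + E • J) where
  sz u hu E hE := by
    refine (norm_add_le _ _).trans (add_le_add ((hT u).trans (mul_le_mul_of_nonneg_left (hB u hu) hc)) ?_)
    rw [norm_smul, Real.norm_eq_abs]
    exact mul_le_mul (hI E hE) hJ (norm_nonneg _) he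
  lip u hu v hv E hE := by
    rw [add_sub_add_right_eq_sub, ← hs]
    exact hT _
  lipE u hu E hE E' hE' := by
    rw [add_sub_add_left_eq_sub, ← sub_smul, norm_smul, Real.norm_eq_abs, mul_comm]
    exact mul_le_mul_of_nonneg_right hJ (abs_nonneg _)

section ring

variable {R : Type*} [NormedRing R] {p p' : X → ℝ → R}

theorem Bq.mul (h : Bq B I S L M p) (h' : Bq B I S' L' M' p') :
    Bq B I (S * S') (L * S' + S * L') (M * S' + S * M') (fun u E => p u E * p' u E) := by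
  have h3 := Bq.bilin (G := fun a b : R => a * b) (c := 1) zero_le_one (fun a b x => sub_mul a b x) (fun a x y => mul_sub a x y)
    (fun a x => by rw [one_mul]; exact norm_mul_le a x) h h'
  refine h3.mono (by rw [one_mul]) (by rw [one_mul]) (by rw [one_mul])

/-- a fixed factor -/
theorem Bq.lmul {a : R} {c : ℝ} (ha : ‖a‖ ≤ c) (h : Bq B I S L M p) : Bq B I (c * S) (c * L) (c * M) (fun u E => a * p u E) := by
  refine h.map (T := fun b => a * b) ((norm_nonneg a).trans ha) (fun x y => mul_sub a x y) fun b => ?_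
  exact (norm_mul_le a b).trans (mul_le_mul_of_nonneg_right ha (norm_nonneg _))

theorem Bq.sq (h : Bq B I S L M p) : Bq B I (S ^ 2) (2 * S * L) (2 * S * M) (fun u E => p u E ^ 2) := by
  refine ((h.mul h).congr fun u _ E _ => pow_two (p u E)).mono (le_of_eq (by ring)) (le_of_eq (by ring)) (le_of_eq (by ring))

end ring

/-- components of a product -/
theorem Bq.fst {Y : Type*} [NormedAddCommGroup Y] {B : Set (X × Y)} {r : ℝ} (hB : ∀ u ∈ B, ‖u.1‖ ≤ r) :
    Bq B I r 1 0 (fun u _ => u.1) where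
  sz u hu _ _ := hB u hu
  lip u _ v _ _ _ := by
    rw [one_mul]
    exact norm_fst_le (u - v)
  lipE _ _ _ _ _ _ := by rw [sub_self, norm_zero, zero_mul]

theorem Bq.snd {Y : Type*} [NormedAddCommGroup Y] {B : Set (X × Y)} {r : ℝ} (hB : ∀ u ∈ B, ‖u.2‖ ≤ r) :
    Bq B I r 1 0 (fun u _ => u.2) where
  sz u hu _ _ := hB u hu
  lip u _ v _ _ _ := by
    rw [one_mul]
    exact norm_snd_le (u - v)
  lipE _ _ _ _ _ _ := by rw [sub_self, norm_zero, zero_mul]

/-- a pair, maximum norm -/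
theorem Bq.pair {Y : Type*} [NormedAddCommGroup Y] {p : X → ℝ → A} {p' : X → ℝ → Y} (h : Bq B I S L M p) (h' : Bq B I S' L' M' p') :
    Bq B I (max S S') (max L L') (max M M') (fun u E => (p u E, p' u E)) where
  sz u hu E hE := max_le_max (h.sz u hu E hE) (h'.sz u hu E hE)
  lip u hu v hv E hE := by
    rw [Prod.mk_sub_mk]
    refine (max_le_max (h.lip u hu v hv E hE) (h'.lip u hu v hv E hE)).trans ?_
    exact max_le (mul_le_mul_of_nonneg_right (le_max_left _ _) (norm_nonneg _)) (mul_le_mul_of_nonneg_right (le_max_right _ _) (norm_nonneg _))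
  lipE u hu E hE E' hE' := by
    rw [Prod.mk_sub_mk]
    refine (max_le_max (h.lipE u hu E hE E' hE') (h'.lipE u hu E hE E' hE')).trans ?_
    exact max_le (mul_le_mul_of_nonneg_right (le_max_left _ _) (abs_nonneg _)) (mul_le_mul_of_nonneg_right (le_max_right _ _) (abs_nonneg _))

/-- fixed point with a parameter -/
theorem Bq.fix [CompleteSpace X] {F : X → ℝ → X} (hF : Bq B I S L M F) (hB : IsClosed B) (hne : B.Nonempty)
    (hmap : ∀ E ∈ I, ∀ u ∈ B, F u E ∈ B) (h0 : 0 ≤ L) (h1 : L < 1) :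
    ∃ U : ℝ → X, (∀ E ∈ I, U E ∈ B ∧ F (U E) E = U E) ∧ (∀ E ∈ I, ∀ v ∈ B, F v E = v → v = U E) ∧
      (∀ E ∈ I, ∀ E' ∈ I, ‖U E - U E'‖ ≤ M / (1 - L) * |E - E'|) ∧
      (∀ E ∈ I, ∀ v ∈ B, ‖U E - v‖ ≤ ‖F v E - v‖ / (1 - L)) ∧ ContinuousOn U I := by
  have h2 : 0 < 1 - L := by linarith
  have key : ∀ E ∈ I, ∃ u ∈ B, F u E = u := by
    intro E hE
    obtain ⟨x, hx⟩ := hne
    have hc : ContractingWith ⟨L, h0⟩ (Set.MapsTo.restrict (fun u => F u E) B B (hmap E hE)) := by
      refine ⟨by exact_mod_cast h1, LipschitzWith.of_dist_le_mul fun u v => ?_⟩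
      rw [Subtype.dist_eq, Subtype.dist_eq, dist_eq_norm, dist_eq_norm]
      exact hF.lip u u.2 v v.2 E hE
    obtain ⟨y, hy, hfy, -, -⟩ := ContractingWith.exists_fixedPoint' hB.isComplete (hmap E hE) hc hx (edist_ne_top _ _)
    exact ⟨y, hy, hfy⟩
  classical
  refine ⟨fun E => if h : E ∈ I then (key E h).choose else 0, ?_⟩
  have hU : ∀ E ∈ I, ∀ W, W = (if h : E ∈ I then (key E h).choose else 0) → W ∈ B ∧ F W E = W := by
    intro E hE W hW
    rw [dif_pos hE] at hW
    rw [hW]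
    exact (key E hE).choose_spec
  obtain ⟨U, hUdef⟩ : ∃ U : ℝ → X, U = fun E => if h : E ∈ I then (key E h).choose else 0 := ⟨_, rfl⟩
  rw [← hUdef]
  have hU' : ∀ E ∈ I, U E ∈ B ∧ F (U E) E = U E := by
    intro E hE
    exact hU E hE (U E) (by rw [hUdef])
  have hpost : ∀ E ∈ I, ∀ v ∈ B, ‖U E - v‖ ≤ ‖F v E - v‖ / (1 - L) := by
    intro E hE v hv
    obtain ⟨h3, h4⟩ := hU' E hE
    rw [le_div_iff₀ h2]
    have h5 := hF.lip (U E) h3 v hv E hE
    rw [h4] at h5
    have h6 : ‖U E - v‖ ≤ ‖U E - F v E‖ + ‖F v E - v‖ := norm_sub_le_norm_sub_add_norm_sub _ _ _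
    nlinarith
  have hlip : ∀ E ∈ I, ∀ E' ∈ I, ‖U E - U E'‖ ≤ M / (1 - L) * |E - E'| := by
    intro E hE E' hE'
    obtain ⟨h3, h4⟩ := hU' E' hE'
    refine (hpost E hE (U E') h3).trans ?_
    have h5 := hF.lipE (U E') h3 E hE E' hE'
    rw [h4] at h5
    rw [div_mul_eq_mul_div]
    exact div_le_div_of_nonneg_right h5 h2.le
  refine ⟨hU', ?_, hlip, hpost, ?_⟩
  · intro E hE v hv hfv
    have h3 := hpost E hE v hv
    rw [hfv, sub_self, norm_zero, zero_div] at h3
    exact (sub_eq_zero.1 (norm_le_zero_iff.1 h3)).symm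
  · refine Metric.continuousOn_iff.2 fun E hE ε hε => ?_
    have hM : 0 ≤ |M| / (1 - L) := div_nonneg (abs_nonneg _) h2.le
    refine ⟨ε / (|M| / (1 - L) + 1), div_pos hε (by linarith), fun E' hE' hd => ?_⟩
    rw [dist_eq_norm]
    rw [Real.dist_eq, lt_div_iff₀ (by linarith)] at hd
    have h3 := hlip E' hE' E hE
    have h4 : M / (1 - L) ≤ |M| / (1 - L) := div_le_div_of_nonneg_right (le_abs_self M) h2.le
    have h5 := abs_nonneg (E' - E)
    nlinarith

end Pool.Agent.H50.SF
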