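import Pool.Agent.H50.SF.Fam
import Pool.Agent.H43.SF.Sp
import Pool.Agent.H55.SQ.Elts
import Pool.Agent.H97.SF.EvS
import Pool.Agent.H37.SG.Fin

/-!
# SF.Cnc : the concrete data satisfy `Spec` and `Dat.Sub`
-/

open Pool.Agent.H27.Leg

namespace Pool.Agent.H50.SF

open Pool.Agent.H43.SF (w0 w1)

/-- what is used about the concrete data -/
structure Con (D : Dat (W L0 w1) (W L0 w0)) : Prop where
  inc : ∀ f, D.inc f = Pool.Agent.H43.SF.incL f
  pr : ∀ f g, D.pr f g = Pool.Agent.H43.SF.prL f g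
  gam : ∀ f g, D.gam f g = Pool.Agent.H43.SF.gamL f g
  y1 : ∀ g k, co (D.y1 g) k = SG.Y1 k (co g k)
  y2 : ∀ f k, co (D.y2 f) k = SG.Y2 k (co f k)
  z1 : ∀ g k, co (D.z1 g) k = SG.Z1 k (co g k)
  z2 : ∀ f k, co (D.z2 f) k = SG.Z2 k (co f k)
  l1 : ∀ g k (s : S0), co (D.l1 g) k s = -(SF.lam k / (s : ℝ) ^ 2) * co (D.z1 g) k s
  l2 : ∀ f k (s : S0), co (D.l2 f) k s = -(SF.lam k / (s : ℝ) ^ 2) * co (D.z2 f) k s
  b : D.b = SF.El.eB w1
  zb : D.zb = SF.El.eZ w0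
  lb : D.lb = SF.El.eL w0
  ch : D.ch = SF.El.eCh w0
  ch1 : D.ch1 = SF.El.eCh1 w0
  kap : D.kap = SF.El.eKap w0
  q3 : D.q3 = SF.El.eQ3 w0
  p : D.p = SF.El.eP w0
  si : D.si = SF.El.eSi w0
  a : D.a = SF.El.eA w0

variable {D : Dat (W L0 w1) (W L0 w0)}

theorem w0_ne (k : ℕ) : w0 k ≠ 0 := (Pool.Agent.H43.SF.w0_pos k).ne'
theorem w1_ne (k : ℕ) : w1 k ≠ 0 := (Pool.Agent.H43.SF.w1_pos k).ne'

theorem PB0 : Pool.Agent.H97.SF.PB w0 := Pool.Agent.H97.SF.PB_pow Pool.Agent.H43.SF.nu_lt_nu1.le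

theorem PB1 : Pool.Agent.H97.SF.PB w1 := fun n => (PB0 n).trans (Pool.Agent.H43.SF.w0_le_w1 n)

theorem mem_evn_of_co {w : ℕ → ℝ} (hw : ∀ k, w k ≠ 0) {f : W L0 w} (h : ∀ n, n % 2 = 1 → co f n = 0) : f ∈ evn L0 w := fun n hn => by
  rw [sc_eq_co hw, h n hn, smul_zero]

theorem co_of_mem {w : ℕ → ℝ} {f : W L0 w} (h : ∀ n, n % 2 = 1 → sc f n = 0) {n : ℕ} (hn : n % 2 = 1) : co f n = 0 := by
  unfold co
  rw [h n hn, smul_zero]

theorem Con.spec (h : Con D) : Spec w0 w1 D Pool.Agent.H43.SF.nu1 SG.kapX where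
  hnu := Pool.Agent.H43.SF.nu_lt_nu1
  hw0 k := rfl
  hw01 := Pool.Agent.H43.SF.w0_le_w1
  kap_cont := SG.kapX_cont
  hkap s hs := SG.kapX_eq hs
  kap_le s hs := (SG.kapX_sup s hs).trans (by norm_num)
  inc f k := by rw [h.inc, Pool.Agent.H43.SF.co_inc]
  green g f k hk := by
    obtain ⟨z, y, h1, h2, h3, h4, h5, h6⟩ := SG.spec k hk (co g k) (co f k)
    refine ⟨z, y, h1, fun s => ?_, fun s => ?_, h4, h5, h6⟩
    · rw [co_add, h.z1, h.z2]
      exact h2 s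
    · rw [co_add, h.y1, h.y2]
      exact h3 s
  high g f k hk := by
    obtain ⟨h1, h2⟩ := SG.bd_high (k := k) (by omega)
    rw [co_add, h.y1, h.y2]
    refine (norm_add_le _ _).trans (add_le_add ?_ ?_)
    · exact ((SG.Y1 k).le_opNorm _).trans (mul_le_mul_of_nonneg_right h1 (norm_nonneg _))
    · exact ((SG.Y2 k).le_opNorm _).trans (mul_le_mul_of_nonneg_right (h2.trans (by norm_num)) (norm_nonneg _))
  base k hk := by
    rw [h.b, h.zb]
    exact SF.El.base (w1_ne _) (w0_ne _) k hk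
  base' := by
    rw [h.b, h.zb]
    exact SF.El.base' (w1_ne _) (w0_ne _)
  lz g f k s := by
    rw [co_add, co_add, ContinuousMap.add_apply, ContinuousMap.add_apply, h.l1, h.l2]
    ring
  lb k s := by
    rw [h.lb, h.zb]
    exact SF.El.lb (w0_ne _) k s
  si f k s := by
    rw [h.si]
    exact SF.El.si f k s
  val s x hx := Pool.Agent.H97.SF.spec_val PB0 s x hx
  gam s x hx f := by
    simp only [h.gam, Pool.Agent.H43.SF.gamL_apply]
    exact Pool.Agent.H97.SF.spec_gam PB0 PB1 Pool.Agent.H43.SF.w1_pos Pool.Agent.H43.SF.kb_gam Pool.Agent.H43.SF.isq s rfl x hx f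
  v_ch s x _ := by rw [h.ch]; exact SF.El.v_ch s x
  v_ch1 s x _ := by rw [h.ch1]; exact SF.El.v_ch1 s x
  v_kap s x _ := by rw [h.kap]; exact SF.El.v_kap s x
  v_q3 s x _ := by rw [h.q3]; exact SF.El.v_q3 s x
  v_p s x _ := by rw [h.p]; exact SF.El.v_p s x
  v_si s x _ := by rw [h.si]; exact SF.El.v_si s x
  v_a s x _ := by rw [h.a]; exact SF.El.v_a s x
  r0 := Pool.Agent.H97.SF.spec_r0 sR
  ch_R0 k := by rw [h.ch]; exact SF.El.ch_R0 k
  ch1_R0 k := by rw [h.ch1]; exact SF.El.ch1_R0 k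

theorem Con.sub (h : Con D) : D.Sub (evn L0 w1) (evnAlg L0 w0) where
  c1 := isClosed_evn
  c0 := isClosed_evnAlg
  inc a ha := mem_evn_of_co w0_ne fun n hn => by rw [h.inc, Pool.Agent.H43.SF.co_inc, co_of_mem ha hn]
  pr a ha := by
    rw [h.pr]
    exact op_mem_evn _ (fun a b L h1 h2 h3 => by
      unfold scl
      rw [c_even h1 h2 h3, zero_mul, zero_div]) ha ha
  gam a ha := by
    rw [h.gam, Pool.Agent.H43.SF.gamL_apply]
    exact (evnAlg L0 w0).mul_mem (iota_mem_evn _) (gam_mem_evn _ ha ha)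
  y1 g hg := mem_evn_of_co w1_ne fun n hn => by rw [h.y1, co_of_mem hg hn, map_zero]
  y2 g hg := mem_evn_of_co w1_ne fun n hn => by rw [h.y2, co_of_mem hg hn, map_zero]
  z1 g hg := mem_evn_of_co w0_ne fun n hn => by rw [h.z1, co_of_mem hg hn, map_zero]
  z2 g hg := mem_evn_of_co w0_ne fun n hn => by rw [h.z2, co_of_mem hg hn, map_zero]
  l1 g hg := mem_evn_of_co w0_ne fun n hn => by
    ext s
    rw [h.l1, h.z1, co_of_mem hg hn, map_zero, ContinuousMap.zero_apply, mul_zero]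
  l2 g hg := mem_evn_of_co w0_ne fun n hn => by
    ext s
    rw [h.l2, h.z2, co_of_mem hg hn, map_zero, ContinuousMap.zero_apply, mul_zero]
  b := by rw [h.b]; exact SF.El.eB_mem w1
  zb := by rw [h.zb]; exact SF.El.eZ_mem
  lb := by rw [h.lb]; exact SF.El.eL_mem
  ch := by rw [h.ch]; exact SF.El.eCh_mem
  ch1 := by rw [h.ch1]; exact SF.El.eCh1_mem
  kap := by rw [h.kap]; exact SF.El.eKap_mem
  q3 := by rw [h.q3]; exact SF.El.eQ3_mem
  p := by rw [h.p]; exact SF.El.eP_mem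
  si := by rw [h.si]; exact SF.El.eSi_mem
  a := by rw [h.a]; exact SF.El.eA_mem

/-- the family exists as soon as the bounds are there -/
theorem Con.fam (h : Con D) (hD : D.Ok cst) : Nonempty SF.Fam := SF.fam hD h.spec h.sub

end Pool.Agent.H50.SF
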