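import Pool.Agent.H50.SF.Cnc

/-!
# SF.DatI : the concrete data and their bounds
-/

open Pool.Agent.H27.Leg

namespace Pool.Agent.H50.SF

open Pool.Agent.H43.SF (w0 w1 muh incL prL gamL w0_pos w1_pos)

theorem w1_eq (n : ℕ) : w1 n = w0 n * muh n := rfl

/-- multiplication with `-lam / s ^ 2` -/
noncomputable def lmf (k : ℕ) : L0 := SF.El.fn (fun s => -(SF.lam k / s ^ 2))
  ((continuousOn_const.div (continuousOn_id.pow 2) fun _ hs => pow_ne_zero 2 (ne_of_gt (SF.El.I0_sub hs))).neg)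

theorem norm_lmf (k : ℕ) : ‖lmf k‖ ≤ SF.lam k / SF.R0 ^ 2 := by
  have hl := Pool.Agent.H43.SF.lam_nonneg k
  have h := SF.R0_pos
  refine SF.El.norm_fn_le _ _ (by positivity) fun s hs => ?_
  have hs0 : 0 < s := h.trans_le hs.1
  rw [abs_neg, abs_of_nonneg (by positivity)]
  exact div_le_div_of_nonneg_left hl (by positivity) (pow_le_pow_left₀ h.le hs.1 2)

/-- the operators of `Lz / s ^ 2` -/
noncomputable def lop (Z : ℕ → L0 →L[ℝ] L0) (k : ℕ) : L0 →L[ℝ] L0 := (ContinuousLinearMap.mul ℝ L0 (lmf k)).comp (Z k)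

theorem lop_apply (Z : ℕ → L0 →L[ℝ] L0) (k : ℕ) (f : L0) (s : S0) : lop Z k f s = -(SF.lam k / (s : ℝ) ^ 2) * Z k f s := rfl

theorem norm_lop (Z : ℕ → L0 →L[ℝ] L0) (k : ℕ) : ‖lop Z k‖ ≤ SF.lam k / SF.R0 ^ 2 * ‖Z k‖ := by
  have hl := Pool.Agent.H43.SF.lam_nonneg k
  have h := SF.R0_pos
  refine ContinuousLinearMap.opNorm_le_bound _ (mul_nonneg (by positivity) (ContinuousLinearMap.opNorm_nonneg _)) fun f => ?_
  change ‖lmf k * Z k f‖ ≤ _
  refine (norm_mul_le _ _).trans ?_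
  rw [mul_assoc]
  exact mul_le_mul (norm_lmf k) ((Z k).le_opNorm f) (norm_nonneg _) (by positivity)

section

variable {wt : ℕ → ℝ} {Z : ℕ → L0 →L[ℝ] L0} {a b : ℝ}

theorem dg_aux (ha : 0 ≤ a) (hZ : ∀ n, wt n * ‖Z n‖ ≤ w0 n * (a + b * muh n)) (n : ℕ) : wt n * ‖Z n‖ ≤ (a + b) * w1 n := by
  refine (hZ n).trans ?_
  rw [w1_eq]
  have h1 := Pool.Agent.H43.SF.one_le_muh n
  have h2 := w0_pos n
  have h3 : a * 1 ≤ a * muh n := mul_le_mul_of_nonneg_left h1 ha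
  nlinarith

/-- diagonal operators with a bound in two norms -/
noncomputable def dg (ht : ∀ n, 0 < wt n) (ha : 0 ≤ a) (hZ : ∀ n, wt n * ‖Z n‖ ≤ w0 n * (a + b * muh n)) : W L0 w1 →L[ℝ] W L0 wt :=
  diag w1 wt Z (C := a + b) (dg_aux ha hZ) w1_pos ht

theorem co_dg (ht : ∀ n, 0 < wt n) (ha : 0 ≤ a) (hZ : ∀ n, wt n * ‖Z n‖ ≤ w0 n * (a + b * muh n)) (f : W L0 w1) (n : ℕ) :
    co (dg ht ha hZ f) n = Z n (co f n) := co_diag _ _ _ _ _

theorem norm_dg (ht : ∀ n, 0 < wt n) (ha : 0 ≤ a) (hZ : ∀ n, wt n * ‖Z n‖ ≤ w0 n * (a + b * muh n)) (f : W L0 w1) :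
    ‖dg ht ha hZ f‖ ≤ a * ‖incL f‖ + b * ‖f‖ := by
  have h1 := hasSum_norm_co ht (dg ht ha hZ f)
  have h2 := (hasSum_norm_co w0_pos (incL f)).mul_left a
  have h3 := (hasSum_norm_co w1_pos f).mul_left b
  refine hasSum_le (fun n => ?_) h1 (h2.add h3)
  rw [co_dg, Pool.Agent.H43.SF.co_inc, w1_eq]
  have h4 := (Z n).le_opNorm (co f n)
  have h5 := norm_nonneg (co f n)
  calc wt n * ‖Z n (co f n)‖ ≤ wt n * (‖Z n‖ * ‖co f n‖) := mul_le_mul_of_nonneg_left h4 (ht n).le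
    _ = (wt n * ‖Z n‖) * ‖co f n‖ := by ring
    _ ≤ (w0 n * (a + b * muh n)) * ‖co f n‖ := mul_le_mul_of_nonneg_right (hZ n) h5
    _ = a * (w0 n * ‖co f n‖) + b * (w0 n * muh n * ‖co f n‖) := by ring

end

theorem b_y1 (n : ℕ) : w1 n * ‖SG.Y1 n‖ ≤ w0 n * (330 + 7 * muh n) := by
  rw [w1_eq, mul_assoc]
  exact mul_le_mul_of_nonneg_left (SG.bd_Y1 n) (w0_pos n).le

theorem b_z1 (n : ℕ) : w0 n * ‖SG.Z1 n‖ ≤ w0 n * (84 + 8 * muh n) := by
  have h := Pool.Agent.H43.SF.one_le_muh n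
  exact mul_le_mul_of_nonneg_left ((SG.bd_Z1 n).trans (by linarith)) (w0_pos n).le

theorem b_l1 (n : ℕ) : w0 n * ‖lop SG.Z1 n‖ ≤ w0 n * (84 + 8 * muh n) :=
  mul_le_mul_of_nonneg_left ((norm_lop SG.Z1 n).trans (SG.bd_L1 n)) (w0_pos n).le

theorem b_y2 (n : ℕ) : w1 n * ‖SG.Y2 n‖ ≤ 21 * w0 n := by
  rw [w1_eq, mul_assoc, mul_comm (21 : ℝ)]
  exact mul_le_mul_of_nonneg_left (SG.bd_Y2 n) (w0_pos n).le

theorem b_z2 (n : ℕ) : w0 n * ‖SG.Z2 n‖ ≤ 11 / 2 * w0 n := by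
  rw [mul_comm (11 / 2 : ℝ)]
  exact mul_le_mul_of_nonneg_left ((SG.bd_Z2 n).trans (by norm_num)) (w0_pos n).le

theorem b_l2 (n : ℕ) : w0 n * ‖lop SG.Z2 n‖ ≤ 11 / 2 * w0 n := by
  rw [mul_comm (11 / 2 : ℝ)]
  exact mul_le_mul_of_nonneg_left (((norm_lop SG.Z2 n).trans (SG.bd_L2 n)).trans (by norm_num)) (w0_pos n).le

/-- the concrete data -/
noncomputable def dat : Dat (W L0 w1) (W L0 w0) where
  inc := incL.toLinearMap
  pr := LinearMap.mk₂ ℝ (fun f g => prL f g) (fun f f' g => by rw [map_add, add_apply])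
    (fun t f g => by rw [map_smul, smul_apply]) (fun f g g' => by rw [map_add]) (fun t f g => by rw [map_smul])
  gam := gamL
  y1 := (dg w1_pos (by norm_num) b_y1).toLinearMap
  y2 := (diag w0 w1 SG.Y2 b_y2 w0_pos w1_pos).toLinearMap
  z1 := (dg w0_pos (by norm_num) b_z1).toLinearMap
  z2 := (diag w0 w0 SG.Z2 b_z2 w0_pos w0_pos).toLinearMap
  l1 := (dg w0_pos (by norm_num) b_l1).toLinearMap
  l2 := (diag w0 w0 (lop SG.Z2) b_l2 w0_pos w0_pos).toLinearMap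
  b := SF.El.eB w1
  zb := SF.El.eZ w0
  lb := SF.El.eL w0
  ch := SF.El.eCh w0
  ch1 := SF.El.eCh1 w0
  kap := SF.El.eKap w0
  q3 := SF.El.eQ3 w0
  p := SF.El.eP w0
  si := SF.El.eSi w0
  a := SF.El.eA w0

theorem dat_con : Con dat where
  inc f := rfl
  pr f g := rfl
  gam f g := rfl
  y1 g k := co_dg w1_pos (by norm_num) b_y1 g k
  y2 f k := co_diag b_y2 w0_pos w1_pos f k
  z1 g k := co_dg w0_pos (by norm_num) b_z1 g k
  z2 f k := co_diag b_z2 w0_pos w0_pos f k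
  l1 g k s := by
    have e1 : co (dat.l1 g) k = lop SG.Z1 k (co g k) := co_dg w0_pos (by norm_num) b_l1 g k
    have e2 : co (dat.z1 g) k = SG.Z1 k (co g k) := co_dg w0_pos (by norm_num) b_z1 g k
    rw [e1, e2, lop_apply]
  l2 f k s := by
    have e1 : co (dat.l2 f) k = lop SG.Z2 k (co f k) := co_diag b_l2 w0_pos w0_pos f k
    have e2 : co (dat.z2 f) k = SG.Z2 k (co f k) := co_diag b_z2 w0_pos w0_pos f k
    rw [e1, e2, lop_apply]
  b := rfl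
  zb := rfl
  lb := rfl
  ch := rfl
  ch1 := rfl
  kap := rfl
  q3 := rfl
  p := rfl
  si := rfl
  a := rfl

theorem w0_ell : w0 SF.ell ≤ 10491 / 10000 := Pool.Agent.H43.SF.nu1_pow_ell

theorem w1_ell : w1 SF.ell ≤ 10491 / 10000 := by
  rw [w1_eq, Pool.Agent.H43.SF.muh_low (by unfold SF.ell; norm_num), mul_one]
  exact w0_ell

theorem dat_ok : dat.Ok cst where
  inc a := Pool.Agent.H43.SF.norm_inc_le a
  inc_pr a b := Pool.Agent.H43.SF.inc_pr a b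
  pr a b := (Pool.Agent.H43.SF.norm_pr_le a b).trans_eq (by unfold cst; norm_num)
  gam a b := (Pool.Agent.H43.SF.norm_gam_le a b).trans_eq (by unfold cst; norm_num)
  y1 g := (norm_dg w1_pos (by norm_num) b_y1 g).trans_eq (by unfold cst; push_cast; rfl)
  y2 h := (norm_diag_le b_y2 w0_pos w1_pos h).trans_eq (by unfold cst; push_cast; rfl)
  z1 g := (norm_dg w0_pos (by norm_num) b_z1 g).trans_eq (by unfold cst; push_cast; rfl)
  z2 h := (norm_diag_le b_z2 w0_pos w0_pos h).trans_eq (by unfold cst; push_cast; rfl)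
  l1 g := (norm_dg w0_pos (by norm_num) b_l1 g).trans_eq (by unfold cst; push_cast; rfl)
  l2 h := (norm_diag_le b_l2 w0_pos w0_pos h).trans_eq (by unfold cst; push_cast; rfl)
  b := (SF.El.norm_eB (w1_pos _) w1_ell).trans_eq (by unfold cst; norm_num)
  zb := (SF.El.norm_eZ (w0_pos _) w0_ell).trans_eq (by unfold cst; norm_num)
  lb := (SF.El.norm_eL (w0_pos _) w0_ell).trans_eq (by unfold cst; norm_num)
  ch := SF.El.norm_eCh.trans_eq (by unfold cst; norm_num)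
  ch1 := SF.El.norm_eCh1.trans_eq (by unfold cst; norm_num)
  kap := SF.El.norm_eKap.trans_eq (by unfold cst; norm_num)
  q3 := SF.El.norm_eQ3.trans_eq (by unfold cst; norm_num)
  p := SF.El.norm_eP.trans_eq (by unfold cst; norm_num)
  si := SF.El.norm_eSi.trans_eq (by unfold cst; norm_num)
  a := SF.El.norm_eA.trans_eq (by unfold cst; norm_num)

theorem fix : Nonempty SF.Fam := dat_con.fam dat_ok

end Pool.Agent.H50.SF
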