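import Pool.Agent.H50.SF.Lay

/-!
# SF.Fam : the family of solutions from the concrete data
-/

open Pool.Agent.H27.Leg Pool.Agent.H68.SC

namespace Pool.Agent.H50.SF

instance : Nonempty S0 := ⟨sR⟩

theorem abs_IE {E : ℝ} (h : E ∈ SF.IE) : |E| ≤ ((cst.t0 : ℚ) : ℝ) := by
  obtain ⟨h1, h2⟩ := h
  unfold SF.E1 at h1
  unfold SF.E2 at h2
  have h3 : 0 ≤ E := le_trans (by norm_num) h1
  rw [abs_of_nonneg h3]
  unfold cst
  push_cast
  exact h2.trans (by norm_num)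

theorem r_tys : ((cst.tys.s : ℚ) : ℝ) ≤ 2 / 5 := by
  have h := (Rat.cast_le (K := ℝ)).2 cst_tys
  refine h.trans ?_
  norm_num

theorem r_tr : ((cst.tr.s : ℚ) : ℝ) ≤ 832 := by
  have h := (Rat.cast_le (K := ℝ)).2 cst_tr
  refine h.trans ?_
  norm_num

theorem r_tN : ((cst.tN.s : ℚ) : ℝ) ≤ 14 := by
  have h := (Rat.cast_le (K := ℝ)).2 cst_tN
  refine h.trans ?_
  norm_num

theorem tsum_le_norm {w : ℕ → ℝ} (hw : ∀ k, 1 ≤ w k) (f : W L0 w) {u : ℕ → ℝ} (hu0 : ∀ k, 0 ≤ u k) (hu : ∀ k, u k ≤ ‖co f k‖) :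
    Summable u ∧ ∑' k, u k ≤ ‖f‖ := by
  have h := hasSum_norm_co (fun k => one_pos.trans_le (hw k)) f
  have h1 : ∀ k, u k ≤ w k * ‖co f k‖ := fun k => (hu k).trans (le_mul_of_one_le_left (norm_nonneg _) (hw k))
  have h2 : Summable u := Summable.of_nonneg_of_le hu0 h1 h.summable
  exact ⟨h2, (h2.tsum_le_tsum h1 h.summable).trans h.tsum_eq.le⟩

variable {w0 w1 : ℕ → ℝ} [Fact (Wt w0)] {D : Dat (W L0 w1) (W L0 w0)} {nu1 : ℝ} {kapx : ℝ → ℝ}

theorem Spec.one_le (hS : Spec w0 w1 D nu1 kapx) (k : ℕ) : 1 ≤ w0 k :=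
  (one_le_pow₀ (nu_gt.trans hS.hnu).le).trans (hS.w0_ge k)

theorem Spec.one_le1 (hS : Spec w0 w1 D nu1 kapx) (k : ℕ) : 1 ≤ w1 k := (hS.one_le k).trans (hS.hw01 k)

/-- the solution as a point -/
theorem pt_of {E : ℝ} (hE : E ∈ SF.IE) (hD : D.Ok cst) (hs : D.Sub (evn L0 w1) (evnAlg L0 w0)) {y : W L0 w1} {k : W L0 w0}
    (my : y ∈ evn L0 w1) (mk : k ∈ evnAlg L0 w0) (ny : ‖y‖ ≤ ((cst.ry : ℚ) : ℝ)) (nys : ‖D.ysh y k E‖ ≤ ((cst.tys.s : ℚ) : ℝ))
    (e1 : y = D.b + E • (D.y1 (D.pr y y) + D.y2 k)) (e2 : k = D.Nh y k E) :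
    Pt D E (E • y) (D.pr (E • y) (E • y)) (E ^ 2 • k) (E • D.zh y k E) (E • D.lh y k E) (E • D.ysh y k E) := by
  obtain ⟨u1, u2, u3, u4, u5, u6⟩ := Dat.unhat hD e1 e2
  have hE' := abs_IE hE
  have c1 : ((cst.t0 : ℚ) : ℝ) = 16 / 100000 := by
    unfold cst
    push_cast
    norm_num
  have c2 : ((cst.ry : ℚ) : ℝ) = 5 / 4 := by
    unfold cst
    push_cast
    norm_num
  have c3 := r_tys
  rw [c1] at hE'
  rw [c2] at ny
  obtain ⟨-, -, mz, -, -⟩ := hs.mem my mk E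
  refine ⟨u1, u2, u3, u4, rfl, ?_, (evn L0 w1).smul_mem E my, hs.pr _ ((evn L0 w1).smul_mem E my), (evnAlg L0 w0).smul_mem mk _,
    (evnAlg L0 w0).smul_mem mz _, ?_, ?_⟩
  · rw [← u5]
    exact u6
  · rw [norm_smul, Real.norm_eq_abs]
    calc |E| * ‖y‖ ≤ 16 / 100000 * (5 / 4) := mul_le_mul hE' ny (norm_nonneg _) (by norm_num)
      _ ≤ 1 / 1000 := by norm_num
  · rw [norm_smul, Real.norm_eq_abs]
    calc |E| * ‖D.ysh y k E‖ ≤ 16 / 100000 * (2 / 5) := mul_le_mul hE' (nys.trans c3) (norm_nonneg _) (by norm_num)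
      _ ≤ 1 / 1000 := by norm_num

/-- the family of solutions -/
theorem fam (hD : D.Ok cst) (hS : Spec w0 w1 D nu1 kapx) (hs : D.Sub (evn L0 w1) (evnAlg L0 w0)) : Nonempty SF.Fam := by
  obtain ⟨y, k, hm, hl, -, -⟩ := Dat.fix hD cst_good (I := SF.IE) (fun E hE => abs_IE hE) hs
  have hpt : ∀ E (hE : E ∈ SF.IE), Pt D E (E • y E) (D.pr (E • y E) (E • y E)) (E ^ 2 • k E) (E • D.zh (y E) (k E) E)
      (E • D.lh (y E) (k E) E) (E • D.ysh (y E) (k E) E) := by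
    intro E hE
    obtain ⟨m1, m2, m3, -, -, -, -, m8, -, m10, m11⟩ := hm E hE
    exact pt_of hE hD hs m1 m2 m3 m8 m10 m11
  have hval : ∀ E (hE : E ∈ SF.IE) (n : ℕ), ((hpt E hE).lay hS hD.inc_pr).y n SF.rho = co (E • y E) n sr := fun E hE n =>
    ext_s (Set.right_mem_Icc.2 h0)
  refine ⟨⟨fun E hE => (hpt E hE).lay hS hD.inc_pr, fun E hE => ?_, fun E hE => ?_, ?_⟩⟩
  · obtain ⟨-, -, -, -, m5, -⟩ := hm E hE
    have h1 := (tsum_le_norm hS.one_le1 (E • (y E - D.b)) (u := fun n => if n = SF.ell then 0 else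
      |((hpt E hE).lay hS hD.inc_pr).y n SF.rho|) (fun n => ?_) (fun n => ?_)).2
    · refine h1.trans ?_
      rw [norm_smul, Real.norm_eq_abs]
      have h2 := r_tr
      have h3 := abs_nonneg E
      calc |E| * ‖y E - D.b‖ ≤ |E| * (832 * |E|) :=
            mul_le_mul_of_nonneg_left (m5.trans (mul_le_mul_of_nonneg_right h2 h3)) h3
        _ = 832 * E ^ 2 := by rw [← sq_abs E]; ring
        _ ≤ 2000 * E ^ 2 := by nlinarith [sq_nonneg E]
    · split_ifs
      · exact le_rfl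
      · exact abs_nonneg _
    · split_ifs with h2
      · exact norm_nonneg _
      · rw [hval E hE]
        have h3 : co (E • (y E - D.b)) n = co (E • y E) n := by
          rw [co_smul, co_smul, co_sub, (hS.base n h2).1, sub_zero]
        rw [h3, ← Real.norm_eq_abs]
        exact (co (E • y E) n).norm_coe_le_norm sr
  · obtain ⟨-, -, m3, m4, -⟩ := hm E hE
    have hp := hpt E hE
    have c2 : ((cst.ry : ℚ) : ℝ) = 5 / 4 := by
      unfold cst
      push_cast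
      norm_num
    rw [c2] at m3
    have c3 := r_tN
    obtain ⟨s1, s2⟩ := tsum_le_norm hS.one_le (D.inc (D.pr (E • y E) (E • y E))) (u := fun n => ‖co (D.pr (E • y E) (E • y E)) n‖)
      (fun n => norm_nonneg _) (fun n => by rw [hS.inc])
    obtain ⟨s3, s4⟩ := tsum_le_norm hS.one_le (E ^ 2 • k E) (u := fun n => ‖co (E ^ 2 • k E) n‖) (fun n => norm_nonneg _)
      (fun n => le_rfl)
    have s5 := (s1.mul_left 7).add (s3.mul_left 2)
    have s6 : ∑' n, (7 * ‖co (D.pr (E • y E) (E • y E)) n‖ + 2 * ‖co (E ^ 2 • k E) n‖) =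
        7 * ∑' n, ‖co (D.pr (E • y E) (E • y E)) n‖ + 2 * ∑' n, ‖co (E ^ 2 • k E) n‖ := by
      rw [(s1.mul_left 7).tsum_add (s3.mul_left 2), tsum_mul_left, tsum_mul_left]
    obtain ⟨N, hN⟩ : ∃ N : ℕ, N = 1212 := ⟨_, rfl⟩
    have s7 := s5.sum_add_tsum_nat_add N
    have s8 : 0 ≤ ∑ n ∈ Finset.range N, (7 * ‖co (D.pr (E • y E) (E • y E)) n‖ + 2 * ‖co (E ^ 2 • k E) n‖) :=
      Finset.sum_nonneg fun n _ => by positivity
    have s9 : ∀ n, |((hpt E hE).lay hS hD.inc_pr).y (n + N) SF.rho| ≤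
        7 * ‖co (D.pr (E • y E) (E • y E)) (n + N)‖ + 2 * ‖co (E ^ 2 • k E) (n + N)‖ := by
      intro n
      rw [hval E hE]
      have h1 : n + N ≠ SF.ell := by
        unfold SF.ell
        omega
      have h2 : co (E • y E) (n + N) = co (D.y1 (D.pr (E • y E) (E • y E)) + D.y2 (E ^ 2 • k E)) (n + N) := by
        conv_lhs => rw [hp.ey, co_add, co_smul, (hS.base _ h1).1, smul_zero, zero_add]
      rw [h2, ← Real.norm_eq_abs]
      exact ((co (D.y1 (D.pr (E • y E) (E • y E)) + D.y2 (E ^ 2 • k E)) (n + N)).norm_coe_le_norm sr).trans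
        (hS.high _ _ _ (by omega))
    have s10 := ((summable_nat_add_iff N).2 s5)
    have s11 : Summable fun n => |((hpt E hE).lay hS hD.inc_pr).y (n + N) SF.rho| :=
      Summable.of_nonneg_of_le (fun n => abs_nonneg _) s9 s10
    have s12 := s11.tsum_le_tsum s9 s10
    have n1 : ‖D.inc (D.pr (E • y E) (E • y E))‖ ≤ 25 / 16 * E ^ 2 := by
      rw [hD.inc_pr]
      refine (norm_mul_le _ _).trans ?_
      have h1 : ‖D.inc (E • y E)‖ ≤ |E| * (5 / 4) := by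
        refine (hD.inc _).trans ?_
        rw [norm_smul, Real.norm_eq_abs]
        exact mul_le_mul_of_nonneg_left m3 (abs_nonneg _)
      calc ‖D.inc (E • y E)‖ * ‖D.inc (E • y E)‖ ≤ (|E| * (5 / 4)) * (|E| * (5 / 4)) :=
            mul_le_mul h1 h1 (norm_nonneg _) (by positivity)
        _ = 25 / 16 * E ^ 2 := by rw [← sq_abs E]; ring
    have n2 : ‖E ^ 2 • k E‖ ≤ 14 * E ^ 2 := by
      rw [norm_smul, Real.norm_eq_abs, abs_of_nonneg (sq_nonneg E), mul_comm]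
      exact mul_le_mul_of_nonneg_right (m4.trans c3) (sq_nonneg E)
    rw [s6] at s7
    rw [← hN]
    nlinarith [sq_nonneg E]
  · refine ⟨5 / 4 + 16 / 100000 * ((cst.mE : ℝ) / (1 - cst.th)), fun E hE E' hE' => ?_⟩
    obtain ⟨-, -, m3, -⟩ := hm E hE
    have c2 : ((cst.ry : ℚ) : ℝ) = 5 / 4 := by
      unfold cst
      push_cast
      norm_num
    have c1 : ((cst.t0 : ℚ) : ℝ) = 16 / 100000 := by
      unfold cst
      push_cast
      norm_num
    rw [c2] at m3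
    have h2 := (hl E hE E' hE').1
    have h1 := (tsum_le_norm hS.one_le1 (E • y E - E' • y E') (u := fun n => |((hpt E hE).lay hS hD.inc_pr).y n SF.rho -
      ((hpt E' hE').lay hS hD.inc_pr).y n SF.rho|) (fun n => abs_nonneg _) (fun n => ?_)).2
    · refine h1.trans ?_
      have h3 : E • y E - E' • y E' = (E - E') • y E + E' • (y E - y E') := by
        rw [sub_smul, smul_sub]
        abel
      rw [h3]
      refine (norm_add_le _ _).trans ?_
      rw [norm_smul, norm_smul, Real.norm_eq_abs, Real.norm_eq_abs]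
      have h4 := abs_IE hE'
      rw [c1] at h4
      have h5 := abs_nonneg (E - E')
      calc |E - E'| * ‖y E‖ + |E'| * ‖y E - y E'‖ ≤ |E - E'| * (5 / 4) + 16 / 100000 * ((cst.mE : ℝ) / (1 - cst.th) * |E - E'|) :=
            add_le_add (mul_le_mul_of_nonneg_left m3 h5) (mul_le_mul h4 h2 (norm_nonneg _) (by norm_num))
        _ = _ := by ring
    · rw [hval E hE, hval E' hE', co_sub, ← Real.norm_eq_abs, ← ContinuousMap.sub_apply]
      exact (co (E • y E) n - co (E' • y E') n).norm_coe_le_norm sr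

end Pool.Agent.H50.SF
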