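import Pool.Agent.H50.SF.Hat

/-! # SF.Fix : replaced by `SF.Hat` -/
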