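import Pool.Agent.H50.SF.Eval

/-!
# SF.Hat : the fixed point of the pair form in hat variables, abstract version

`X1`, `A0` : the spaces with the weights `nu ^ k max 1 mu_k` and `nu ^ k`.  `y = E yh`, `z = E zh`, `Lam = E Lh`, `h = E ^ 2 hh`:
`yh = b + E (Y1 (yh ^ 2) + Y2 hh)`, `zh = zb + E (Z1 (yh ^ 2) + Z2 hh)`, `Lh = Lb + E (L1 (yh ^ 2) + L2 hh)`, `ysh = zh + Lh + E hh - 2 yh / s`, `hh = N2h E ...`,
where `N2a = E ^ 2 N2h`.  Unknown `(yh, hh / sg)`.  `Cst` : the constants, all checks are on rational numbers.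
-/

set_option linter.unusedSectionVars false

namespace Pool.Agent.H50.SF

section

variable {R : Type*} [NormedCommRing R] [NormedAlgebra ℝ R]

/-- the nonlinearity in hat variables -/
noncomputable def N2h (E : ℝ) (q3 p kap c si y ys z lz G e d ep ay : R) : R :=
  (ep + ep + E • (ep * ep)) * (q3 * e - ys + (z + p * e)) +
    (1 + E • ep) * (1 + E • ep) * (d * (z + p * e) - (1 / 2 : ℝ) • ((1 + E • d) * (ay * e))) -
    (si + si) * ((ep + d + E • (ep * d)) * (ay + p * ep)) + d * lz + c * ((1 + E • (kap * y)) * G)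

theorem N2a_hat (E : ℝ) (q3 p kap c si y ys z lz G e d ep ay : R) :
    N2a q3 p kap c si (E • y) (E • ys) (E • z) (E • lz) (E ^ 2 • G) (E • e) (E • d) (E • ep) (E • ay) =
      E ^ 2 • N2h E q3 p kap c si y ys z lz G e d ep ay := by
  unfold N2a N2h
  simp only [Algebra.smul_def, map_pow]
  ring

end

/-- the same in triples, `te` : the triple of the parameter -/
def N2ht (te q3 p kap c si y ys z lz G e d ep ay : Tr) : Tr :=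
  (ep + ep + te * (ep * ep)) * (q3 * e + ys + (z + p * e)) +
    (Tr.c 1 + te * ep) * (Tr.c 1 + te * ep) * (d * (z + p * e) + Tr.c (1 / 2) * ((Tr.c 1 + te * d) * (ay * e))) +
    (si + si) * ((ep + d + te * (ep * d)) * (ay + p * ep)) + d * lz + c * ((Tr.c 1 + te * (kap * y)) * G)

section

variable {X : Type*} [NormedAddCommGroup X] {B : Set X} {I : Set ℝ}

/-- multiplication with the parameter -/
theorem Bt.par {A : Type*} [NormedAddCommGroup A] [NormedSpace ℝ A] {T : Tr} {q : X → ℝ → A} {e : ℚ} (hI : ∀ E ∈ I, |E| ≤ (e : ℝ))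
    (h : Bt B I T q) : Bt B I (⟨e, 0, 1⟩ * T) (fun u E => E • q u E) := by
  have hp : Bt B I ⟨e, 0, 1⟩ (fun (_ : X) (E : ℝ) => E) := by
    refine ⟨fun _ _ E hE => ?_, fun _ _ _ _ _ _ => ?_, fun _ _ E _ E' _ => ?_⟩
    · rw [Real.norm_eq_abs]
      exact hI E hE
    · rw [sub_self, norm_zero]
      push_cast
      rw [zero_mul]
    · rw [Real.norm_eq_abs]
      push_cast
      rw [one_mul]
  have h2 := Bt.bilin (G := fun (r : ℝ) (a : A) => r • a) (c := 1) (by norm_num) (fun a b x => sub_smul a b x) (fun a x y => smul_sub a x y)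
    (fun a x => by rw [norm_smul]; push_cast; rw [one_mul]) hp h
  refine h2.le ?_
  unfold Tr.Le
  simp [Tr.mul_s, Tr.mul_l, Tr.mul_m, Tr.c]

/-- additive maps with a bound in two norms -/
theorem Bt.map2 {X1 A0 A : Type*} [NormedAddCommGroup X1] [NormedAddCommGroup A0] [NormedAddCommGroup A] {i : X1 → A0} {F : X1 → A} {c0 c1 : ℚ}
    {T0 T1 : Tr} {q : X → ℝ → X1} (h0 : 0 ≤ c0) (h1 : 0 ≤ c1) (hi : ∀ a b, i (a - b) = i a - i b) (hs : ∀ a b, F (a - b) = F a - F b)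
    (hF : ∀ a, ‖F a‖ ≤ c0 * ‖i a‖ + c1 * ‖a‖) (hq0 : Bt B I T0 (fun u E => i (q u E))) (hq1 : Bt B I T1 q) :
    Bt B I (Tr.c c0 * T0 + Tr.c c1 * T1) (fun u E => F (q u E)) := by
  have k0 : (0 : ℝ) ≤ c0 := by exact_mod_cast h0
  have k1 : (0 : ℝ) ≤ c1 := by exact_mod_cast h1
  unfold Bt
  rw [Tr.add_s, Tr.add_l, Tr.add_m, Tr.mul_s, Tr.mul_l, Tr.mul_m, Tr.mul_s, Tr.mul_l, Tr.mul_m]
  unfold Tr.c
  push_cast
  simp only [zero_mul, zero_add]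
  refine ⟨fun u hu E hE => ?_, fun u hu v hv E hE => ?_, fun u hu E hE E' hE' => ?_⟩
  · exact (hF _).trans (add_le_add (mul_le_mul_of_nonneg_left (hq0.sz u hu E hE) k0) (mul_le_mul_of_nonneg_left (hq1.sz u hu E hE) k1))
  · rw [← hs, add_mul, mul_assoc, mul_assoc]
    refine (hF _).trans (add_le_add (mul_le_mul_of_nonneg_left ?_ k0) (mul_le_mul_of_nonneg_left (hq1.lip u hu v hv E hE) k1))
    rw [hi]
    exact hq0.lip u hu v hv E hE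
  · rw [← hs, add_mul, mul_assoc, mul_assoc]
    refine (hF _).trans (add_le_add (mul_le_mul_of_nonneg_left ?_ k0) (mul_le_mul_of_nonneg_left (hq1.lipE u hu E hE E' hE') k1))
    rw [hi]
    exact hq0.lipE u hu E hE E' hE'

theorem Bt.N2h {R : Type*} [NormedCommRing R] [NormedAlgebra ℝ R] [NormOneClass R] {Tq Tp Tk Tc Ti Ty Tys Tz Tlz TG Te Td Tep Tay : Tr} {r : ℚ}
    {q3 pp kap c si y ys z lz G e d ep ay : X → ℝ → R} (hI : ∀ E ∈ I, |E| ≤ (r : ℝ))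
    (hq3 : Bt B I Tq q3) (hp : Bt B I Tp pp) (hk : Bt B I Tk kap) (hc : Bt B I Tc c) (hi : Bt B I Ti si) (hy : Bt B I Ty y)
    (hys : Bt B I Tys ys) (hz : Bt B I Tz z) (hlz : Bt B I Tlz lz) (hG : Bt B I TG G) (he : Bt B I Te e) (hd : Bt B I Td d)
    (hep : Bt B I Tep ep) (hay : Bt B I Tay ay) :
    Bt B I (N2ht ⟨r, 0, 1⟩ Tq Tp Tk Tc Ti Ty Tys Tz Tlz TG Te Td Tep Tay) (fun u E => SF.N2h E (q3 u E) (pp u E) (kap u E) (c u E) (si u E)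
      (y u E) (ys u E) (z u E) (lz u E) (G u E) (e u E) (d u E) (ep u E) (ay u E)) := by
  have h1 : Bt B I (Tr.c 1) (fun (_ : X) (_ : ℝ) => (1 : R)) := Bt.const (by rw [norm_one]; norm_num)
  have hpe := hz.add (hp.mul he)
  have t1 := ((hep.add hep).add ((hep.mul hep).par hI)).mul (((hq3.mul he).sub hys).add hpe)
  have t2 := ((h1.add (hep.par hI)).mul (h1.add (hep.par hI))).mul
    ((hd.mul hpe).sub (((h1.add (hd.par hI)).mul (hay.mul he)).smul (r := 1 / 2) (c := 1 / 2) (by norm_num [abs_of_pos])))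
  have t3 := (hi.add hi).mul (((hep.add hd).add ((hep.mul hd).par hI)).mul (hay.add (hp.mul hep)))
  have t4 := hd.mul hlz
  have t5 := hc.mul ((h1.add ((hk.mul hy).par hI)).mul hG)
  exact (((t1.add t2).sub t3).add t4).add t5

end

/-- the data: inclusion, product and gradient product, Green operators (the source of the first equation is `(kappa / 2) g`), the resonant mode, the fixed
functions -/
structure Dat (X1 A0 : Type*) [NormedAddCommGroup X1] [NormedSpace ℝ X1] [NormedCommRing A0] [NormedAlgebra ℝ A0] where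
  inc : X1 →ₗ[ℝ] A0
  pr : X1 →ₗ[ℝ] X1 →ₗ[ℝ] X1
  gam : X1 →ₗ[ℝ] X1 →ₗ[ℝ] A0
  y1 : X1 →ₗ[ℝ] X1
  y2 : A0 →ₗ[ℝ] X1
  z1 : X1 →ₗ[ℝ] A0
  z2 : A0 →ₗ[ℝ] A0
  l1 : X1 →ₗ[ℝ] A0
  l2 : A0 →ₗ[ℝ] A0
  b : X1
  zb : A0
  lb : A0
  ch : A0
  ch1 : A0
  kap : A0
  q3 : A0
  p : A0
  si : A0
  a : A0

/-- the constants: bounds of the data, of the parameter, the scaling, the radii and the results -/
structure Cst where
  (kpr kgam ky0 ky1 ky2 kz0 kz1 kz2 kl0 kl1 kl2 kb kzb klb kch kch1 kkap kq3 kp ksi ka : ℚ)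
  (t0 sg ry rh th mE : ℚ)

/-- the bounds of the data -/
structure Dat.Ok {X1 A0 : Type*} [NormedAddCommGroup X1] [NormedSpace ℝ X1] [NormedCommRing A0] [NormedAlgebra ℝ A0]
    (D : Dat X1 A0) (C : Cst) : Prop where
  inc : ∀ a, ‖D.inc a‖ ≤ ‖a‖
  inc_pr : ∀ a b, D.inc (D.pr a b) = D.inc a * D.inc b
  pr : ∀ a b, ‖D.pr a b‖ ≤ C.kpr * (‖a‖ * ‖b‖)
  gam : ∀ a b, ‖D.gam a b‖ ≤ C.kgam * (‖a‖ * ‖b‖)
  y1 : ∀ g, ‖D.y1 g‖ ≤ C.ky0 * ‖D.inc g‖ + C.ky1 * ‖g‖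
  y2 : ∀ h, ‖D.y2 h‖ ≤ C.ky2 * ‖h‖
  z1 : ∀ g, ‖D.z1 g‖ ≤ C.kz0 * ‖D.inc g‖ + C.kz1 * ‖g‖
  z2 : ∀ h, ‖D.z2 h‖ ≤ C.kz2 * ‖h‖
  l1 : ∀ g, ‖D.l1 g‖ ≤ C.kl0 * ‖D.inc g‖ + C.kl1 * ‖g‖
  l2 : ∀ h, ‖D.l2 h‖ ≤ C.kl2 * ‖h‖
  b : ‖D.b‖ ≤ C.kb
  zb : ‖D.zb‖ ≤ C.kzb
  lb : ‖D.lb‖ ≤ C.klb
  ch : ‖D.ch‖ ≤ C.kch
  ch1 : ‖D.ch1‖ ≤ C.kch1
  kap : ‖D.kap‖ ≤ C.kkap
  q3 : ‖D.q3‖ ≤ C.kq3
  p : ‖D.p‖ ≤ C.kp
  si : ‖D.si‖ ≤ C.ksi
  a : ‖D.a‖ ≤ C.ka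

/-- the triple of the parameter -/
def Cst.te (C : Cst) : Tr := ⟨C.t0, 0, 1⟩
/-- the triple of `yh` -/
def Cst.ty (C : Cst) : Tr := ⟨C.ry, 1, 0⟩
/-- the triple of `hh` -/
def Cst.th' (C : Cst) : Tr := Tr.c C.sg * ⟨C.rh, 1, 0⟩
/-- the triple of `yh` in `A0` -/
def Cst.ti (C : Cst) : Tr := Tr.c 1 * C.ty
/-- the triple of `yh ^ 2` in `A0` -/
def Cst.tg0 (C : Cst) : Tr := C.ti * C.ti
/-- the triple of `yh ^ 2` in `X1` -/
def Cst.tg1 (C : Cst) : Tr := Tr.c C.kpr * (C.ty * C.ty)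
/-- the triple of `Y1 (yh ^ 2) + Y2 hh` -/
def Cst.tr (C : Cst) : Tr := Tr.c C.ky0 * C.tg0 + Tr.c C.ky1 * C.tg1 + Tr.c C.ky2 * C.th'
/-- the triple of the first component -/
def Cst.t1 (C : Cst) : Tr := Tr.c C.kb + C.te * C.tr
/-- the triple of `zh` -/
def Cst.tz (C : Cst) : Tr := Tr.c C.kzb + C.te * (Tr.c C.kz0 * C.tg0 + Tr.c C.kz1 * C.tg1 + Tr.c C.kz2 * C.th')
/-- the triple of `Lh` -/
def Cst.tl (C : Cst) : Tr := Tr.c C.klb + C.te * (Tr.c C.kl0 * C.tg0 + Tr.c C.kl1 * C.tg1 + Tr.c C.kl2 * C.th')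
/-- the triple of `ysh` -/
def Cst.tys (C : Cst) : Tr := C.tz + C.tl + C.te * C.th' + (Tr.c C.ksi + Tr.c C.ksi) * C.ti
/-- the triple of `chi yh` -/
def Cst.te' (C : Cst) : Tr := Tr.c C.kch * C.ti
/-- the triple of the derivative of `chi yh` -/
def Cst.td (C : Cst) : Tr := Tr.c C.kch1 * C.ti + Tr.c C.kch * C.tys
/-- the triple of `N2h` -/
def Cst.tN (C : Cst) : Tr :=
  N2ht C.te (Tr.c C.kq3) (Tr.c C.kp) (Tr.c C.kkap) (Tr.c C.kch) (Tr.c C.ksi) C.ti C.tys C.tz C.tl (Tr.c C.kgam * (C.ty * C.ty)) C.te' C.td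
    (Tr.c C.ksi * C.te') (Tr.c C.ka * C.ti)
/-- the triple of the second component -/
def Cst.t2 (C : Cst) : Tr := Tr.c (1 / C.sg) * C.tN

/-- the check -/
def Cst.Good (C : Cst) : Prop :=
  (0 ≤ C.kpr ∧ 0 ≤ C.kgam ∧ 0 ≤ C.ky0 ∧ 0 ≤ C.ky1 ∧ 0 ≤ C.ky2 ∧ 0 ≤ C.kz0 ∧ 0 ≤ C.kz1 ∧ 0 ≤ C.kz2 ∧ 0 ≤ C.kl0 ∧ 0 ≤ C.kl1 ∧ 0 ≤ C.kl2) ∧
    0 < C.sg ∧ 0 ≤ C.ry ∧ 0 ≤ C.rh ∧ 0 ≤ C.th ∧ C.th < 1 ∧ Tr.Le C.t1 ⟨C.ry, C.th, C.mE⟩ ∧ Tr.Le C.t2 ⟨C.rh, C.th, C.mE⟩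

instance (C : Cst) : Decidable C.Good := by
  unfold Cst.Good
  infer_instance

section

variable {X1 A0 : Type*} [NormedAddCommGroup X1] [NormedSpace ℝ X1] [NormedCommRing A0] [NormedAlgebra ℝ A0]

/-- `zh` -/
noncomputable def Dat.zh (D : Dat X1 A0) (y : X1) (h : A0) (E : ℝ) : A0 := D.zb + E • (D.z1 (D.pr y y) + D.z2 h)

/-- `Lh` -/
noncomputable def Dat.lh (D : Dat X1 A0) (y : X1) (h : A0) (E : ℝ) : A0 := D.lb + E • (D.l1 (D.pr y y) + D.l2 h)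

/-- `ysh` -/
noncomputable def Dat.ysh (D : Dat X1 A0) (y : X1) (h : A0) (E : ℝ) : A0 := D.zh y h E + D.lh y h E + E • h - (D.si + D.si) * D.inc y

/-- the derivative of `chi yh` -/
noncomputable def Dat.dh (D : Dat X1 A0) (y : X1) (h : A0) (E : ℝ) : A0 := D.ch1 * D.inc y + D.ch * D.ysh y h E

/-- the second source -/
noncomputable def Dat.Nh (D : Dat X1 A0) (y : X1) (h : A0) (E : ℝ) : A0 :=
  N2h E D.q3 D.p D.kap D.ch D.si (D.inc y) (D.ysh y h E) (D.zh y h E) (D.lh y h E) (D.gam y y) (D.ch * D.inc y) (D.dh y h E)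
    (D.si * (D.ch * D.inc y)) (D.a * D.inc y)

/-- the map -/
noncomputable def Dat.F (D : Dat X1 A0) (C : Cst) (u : X1 × A0) (E : ℝ) : X1 × A0 :=
  (D.b + E • (D.y1 (D.pr u.1 u.1) + D.y2 ((C.sg : ℝ) • u.2)), (1 / C.sg : ℝ) • D.Nh u.1 ((C.sg : ℝ) • u.2) E)

/-- the domain -/
def box (X1 A0 : Type*) [NormedAddCommGroup X1] [NormedAddCommGroup A0] (C : Cst) : Set (X1 × A0) :=
  {u | ‖u.1‖ ≤ (C.ry : ℝ) ∧ ‖u.2‖ ≤ (C.rh : ℝ)}

/-- closed subspaces which are preserved by everything -/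
structure Dat.Sub (D : Dat X1 A0) (S1 : Submodule ℝ X1) (S0 : Subalgebra ℝ A0) : Prop where
  c1 : IsClosed (S1 : Set X1)
  c0 : IsClosed (S0 : Set A0)
  inc : ∀ a ∈ S1, D.inc a ∈ S0
  pr : ∀ a ∈ S1, D.pr a a ∈ S1
  gam : ∀ a ∈ S1, D.gam a a ∈ S0
  y1 : ∀ g ∈ S1, D.y1 g ∈ S1
  y2 : ∀ k ∈ S0, D.y2 k ∈ S1
  z1 : ∀ g ∈ S1, D.z1 g ∈ S0
  z2 : ∀ k ∈ S0, D.z2 k ∈ S0
  l1 : ∀ g ∈ S1, D.l1 g ∈ S0
  l2 : ∀ k ∈ S0, D.l2 k ∈ S0
  b : D.b ∈ S1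
  zb : D.zb ∈ S0
  lb : D.lb ∈ S0
  ch : D.ch ∈ S0
  ch1 : D.ch1 ∈ S0
  kap : D.kap ∈ S0
  q3 : D.q3 ∈ S0
  p : D.p ∈ S0
  si : D.si ∈ S0
  a : D.a ∈ S0

theorem N2h_mem (S : Subalgebra ℝ A0) (E : ℝ) {q3 p kap c si y ys z lz G e d ep ay : A0} (h1 : q3 ∈ S) (h2 : p ∈ S) (h3 : kap ∈ S)
    (h4 : c ∈ S) (h5 : si ∈ S) (h6 : y ∈ S) (h7 : ys ∈ S) (h8 : z ∈ S) (h9 : lz ∈ S) (h10 : G ∈ S) (h11 : e ∈ S) (h12 : d ∈ S) (h13 : ep ∈ S)
    (h14 : ay ∈ S) : N2h E q3 p kap c si y ys z lz G e d ep ay ∈ S := by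
  unfold N2h
  have sm : ∀ (t : ℝ) {a : A0}, a ∈ S → t • a ∈ S := fun t _ h => S.smul_mem h t
  have hpe := S.add_mem h8 (S.mul_mem h2 h11)
  refine S.add_mem (S.add_mem (S.sub_mem (S.add_mem (S.mul_mem (S.add_mem (S.add_mem h13 h13) (sm _ (S.mul_mem h13 h13)))
    (S.add_mem (S.sub_mem (S.mul_mem h1 h11) h7) hpe))
    (S.mul_mem (S.mul_mem (S.add_mem S.one_mem (sm _ h13)) (S.add_mem S.one_mem (sm _ h13))) (S.sub_mem (S.mul_mem h12 hpe)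
      (sm _ (S.mul_mem (S.add_mem S.one_mem (sm _ h12)) (S.mul_mem h14 h11))))))
    (S.mul_mem (S.add_mem h5 h5) (S.mul_mem (S.add_mem (S.add_mem h13 h12) (sm _ (S.mul_mem h13 h12))) (S.add_mem h14 (S.mul_mem h2 h13)))))
    (S.mul_mem h12 h9)) (S.mul_mem h4 (S.mul_mem (S.add_mem S.one_mem (sm _ (S.mul_mem h3 h6))) h10))

theorem Dat.Sub.mem {D : Dat X1 A0} {S1 : Submodule ℝ X1} {S0 : Subalgebra ℝ A0} (h : D.Sub S1 S0) {y : X1} {k : A0} (hy : y ∈ S1) (hk : k ∈ S0)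
    (E : ℝ) : D.b + E • (D.y1 (D.pr y y) + D.y2 k) ∈ S1 ∧ D.Nh y k E ∈ S0 ∧ D.zh y k E ∈ S0 ∧ D.lh y k E ∈ S0 ∧ D.ysh y k E ∈ S0 := by
  have hg := h.pr y hy
  have hi := h.inc y hy
  have hz : D.zh y k E ∈ S0 := S0.add_mem h.zb (S0.smul_mem (S0.add_mem (h.z1 _ hg) (h.z2 _ hk)) E)
  have hl : D.lh y k E ∈ S0 := S0.add_mem h.lb (S0.smul_mem (S0.add_mem (h.l1 _ hg) (h.l2 _ hk)) E)
  have hys : D.ysh y k E ∈ S0 := S0.sub_mem (S0.add_mem (S0.add_mem hz hl) (S0.smul_mem hk E)) (S0.mul_mem (S0.add_mem h.si h.si) hi)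
  refine ⟨S1.add_mem h.b (S1.smul_mem E (S1.add_mem (h.y1 _ hg) (h.y2 _ hk))), ?_, hz, hl, hys⟩
  exact N2h_mem S0 E h.q3 h.p h.kap h.ch h.si hi hys hz hl (h.gam y hy) (S0.mul_mem h.ch hi)
    (S0.add_mem (S0.mul_mem h.ch1 hi) (S0.mul_mem h.ch hys)) (S0.mul_mem h.si (S0.mul_mem h.ch hi)) (S0.mul_mem h.a hi)

variable [NormOneClass A0] {D : Dat X1 A0} {C : Cst} {I : Set ℝ} (h : D.Ok C) (hC : C.Good) (hI : ∀ E ∈ I, |E| ≤ (C.t0 : ℝ))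

include h hC hI

/-- the bounds of the map -/
theorem Dat.tF : Bt (box X1 A0 C) I C.t1 (fun u E => (D.F C u E).1) ∧ Bt (box X1 A0 C) I C.t2 (fun u E => (D.F C u E).2) ∧
    Bt (box X1 A0 C) I C.tr (fun u _ => D.y1 (D.pr u.1 u.1) + D.y2 ((C.sg : ℝ) • u.2)) ∧
    Bt (box X1 A0 C) I C.tN (fun u E => D.Nh u.1 ((C.sg : ℝ) • u.2) E) ∧
    Bt (box X1 A0 C) I C.tz (fun u E => D.zh u.1 ((C.sg : ℝ) • u.2) E) ∧ Bt (box X1 A0 C) I C.tl (fun u E => D.lh u.1 ((C.sg : ℝ) • u.2) E) ∧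
    Bt (box X1 A0 C) I C.tys (fun u E => D.ysh u.1 ((C.sg : ℝ) • u.2) E) ∧ Bt (box X1 A0 C) I C.td (fun u E => D.dh u.1 ((C.sg : ℝ) • u.2) E) := by
  obtain ⟨⟨n1, n2, n3, n4, n5, n6, n7, n8, n9, n10, n11⟩, hsg, -⟩ := hC
  have h0 : (0 : ℝ) < C.sg := by exact_mod_cast hsg
  have hy : Bt (box X1 A0 C) I C.ty (fun u _ => u.1) := by
    have h1 := Bq.fst (I := I) (B := box X1 A0 C) (r := (C.ry : ℝ)) fun u hu => hu.1
    unfold Bt Cst.ty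
    simpa using h1
  have hf : Bt (box X1 A0 C) I C.th' (fun u _ => (C.sg : ℝ) • u.2) := by
    have h1 : Bt (box X1 A0 C) I ⟨C.rh, 1, 0⟩ (fun u _ => u.2) := by
      have h2 := Bq.snd (I := I) (B := box X1 A0 C) (r := (C.rh : ℝ)) fun u hu => hu.2
      unfold Bt
      simpa using h2
    exact Bt.smul (r := (C.sg : ℝ)) (c := C.sg) (by rw [abs_of_pos h0]) h1
  have hi : Bt (box X1 A0 C) I C.ti (fun u _ => D.inc u.1) :=
    Bt.map (F := fun a => D.inc a) (c := 1) (by norm_num) (fun a b => map_sub D.inc a b) (fun a => by push_cast; rw [one_mul]; exact h.inc a) hy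
  have hg1 : Bt (box X1 A0 C) I C.tg1 (fun u _ => D.pr u.1 u.1) :=
    Bt.bilin (G := fun a b => D.pr a b) n1 (fun a b x => by rw [map_sub, LinearMap.sub_apply]) (fun a x y => map_sub (D.pr a) x y) h.pr hy hy
  have hg0 : Bt (box X1 A0 C) I C.tg0 (fun u _ => D.inc (D.pr u.1 u.1)) := by
    have e : (fun (u : X1 × A0) (_ : ℝ) => D.inc (D.pr u.1 u.1)) = fun u _ => D.inc u.1 * D.inc u.1 := by
      funext u E
      exact h.inc_pr _ _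
    rw [e]
    exact hi.mul hi
  have hG : Bt (box X1 A0 C) I (Tr.c C.kgam * (C.ty * C.ty)) (fun u _ => D.gam u.1 u.1) :=
    Bt.bilin (G := fun a b => D.gam a b) n2 (fun a b x => by rw [map_sub, LinearMap.sub_apply]) (fun a x y => map_sub (D.gam a) x y) h.gam hy hy
  have hr : Bt (box X1 A0 C) I C.tr (fun u _ => D.y1 (D.pr u.1 u.1) + D.y2 ((C.sg : ℝ) • u.2)) :=
    (Bt.map2 (F := fun a => D.y1 a) (i := fun a => D.inc a) n3 n4 (fun a b => map_sub D.inc a b) (fun a b => map_sub D.y1 a b) h.y1 hg0 hg1).add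
      (Bt.map (F := fun a => D.y2 a) n5 (fun a b => map_sub D.y2 a b) h.y2 hf)
  have hz : Bt (box X1 A0 C) I C.tz (fun u E => D.zh u.1 ((C.sg : ℝ) • u.2) E) :=
    (Bt.const h.zb).add (((Bt.map2 (F := fun a => D.z1 a) (i := fun a => D.inc a) n6 n7 (fun a b => map_sub D.inc a b)
      (fun a b => map_sub D.z1 a b) h.z1 hg0 hg1).add (Bt.map (F := fun a => D.z2 a) n8 (fun a b => map_sub D.z2 a b) h.z2 hf)).par hI)
  have hl : Bt (box X1 A0 C) I C.tl (fun u E => D.lh u.1 ((C.sg : ℝ) • u.2) E) :=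
    (Bt.const h.lb).add (((Bt.map2 (F := fun a => D.l1 a) (i := fun a => D.inc a) n9 n10 (fun a b => map_sub D.inc a b)
      (fun a b => map_sub D.l1 a b) h.l1 hg0 hg1).add (Bt.map (F := fun a => D.l2 a) n11 (fun a b => map_sub D.l2 a b) h.l2 hf)).par hI)
  have hys : Bt (box X1 A0 C) I C.tys (fun u E => D.ysh u.1 ((C.sg : ℝ) • u.2) E) :=
    ((hz.add hl).add (hf.par hI)).sub (((Bt.const h.si).add (Bt.const h.si)).mul hi)
  have he : Bt (box X1 A0 C) I C.te' (fun u _ => D.ch * D.inc u.1) := (Bt.const h.ch).mul hi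
  have hd : Bt (box X1 A0 C) I C.td (fun u E => D.dh u.1 ((C.sg : ℝ) • u.2) E) := ((Bt.const h.ch1).mul hi).add ((Bt.const h.ch).mul hys)
  have hN : Bt (box X1 A0 C) I C.tN (fun u E => D.Nh u.1 ((C.sg : ℝ) • u.2) E) :=
    Bt.N2h hI (Bt.const h.q3) (Bt.const h.p) (Bt.const h.kap) (Bt.const h.ch) (Bt.const h.si) hi hys hz hl hG he hd ((Bt.const h.si).mul he)
      ((Bt.const h.a).mul hi)
  refine ⟨(Bt.const h.b).add (hr.par hI), ?_, hr, hN, hz, hl, hys, hd⟩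
  refine Bt.smul (r := (1 / C.sg : ℝ)) (c := 1 / C.sg) ?_ hN
  rw [abs_of_pos (by positivity)]
  push_cast
  exact le_rfl

/-- the family of fixed points in hat variables -/
theorem Dat.fix [CompleteSpace X1] [CompleteSpace A0] {S1 : Submodule ℝ X1} {S0 : Subalgebra ℝ A0} (hS : D.Sub S1 S0) :
    ∃ (y : ℝ → X1) (k : ℝ → A0), (∀ E ∈ I, y E ∈ S1 ∧ k E ∈ S0 ∧ ‖y E‖ ≤ (C.ry : ℝ) ∧ ‖k E‖ ≤ (C.tN.s : ℝ) ∧ ‖y E - D.b‖ ≤ (C.tr.s : ℝ) * |E| ∧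
        ‖D.zh (y E) (k E) E‖ ≤ (C.tz.s : ℝ) ∧ ‖D.lh (y E) (k E) E‖ ≤ (C.tl.s : ℝ) ∧ ‖D.ysh (y E) (k E) E‖ ≤ (C.tys.s : ℝ) ∧
        ‖D.dh (y E) (k E) E‖ ≤ (C.td.s : ℝ) ∧
        y E = D.b + E • (D.y1 (D.pr (y E) (y E)) + D.y2 (k E)) ∧ k E = D.Nh (y E) (k E) E) ∧
      (∀ E ∈ I, ∀ E' ∈ I, ‖y E - y E'‖ ≤ (C.mE : ℝ) / (1 - C.th) * |E - E'| ∧ ‖k E - k E'‖ ≤ (C.sg * C.mE : ℝ) / (1 - C.th) * |E - E'|) ∧
      ContinuousOn y I ∧ ContinuousOn k I := by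
  obtain ⟨h1, h2, h10, h11, h12, h13, h14, h15⟩ := Dat.tF h hC hI
  obtain ⟨-, c2, c3, c4, c5, c6, c7, c8⟩ := hC
  have h3 := h1.le c7
  have h4 := h2.le c8
  have hF0 : Bq (box X1 A0 C) I (max C.ry C.rh : ℝ) C.th C.mE (D.F C) := by
    have h5 := Bq.pair h3 h4
    exact h5.mono le_rfl (by rw [max_self]) (by rw [max_self])
  let B' : Set (X1 × A0) := box X1 A0 C ∩ {u | u.1 ∈ S1 ∧ u.2 ∈ S0}
  have hF : Bq B' I (max C.ry C.rh : ℝ) C.th C.mE (D.F C) :=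
    ⟨fun u hu => hF0.sz u hu.1, fun u hu v hv => hF0.lip u hu.1 v hv.1, fun u hu => hF0.lipE u hu.1⟩
  have hcl : IsClosed (box X1 A0 C) := by
    have e : box X1 A0 C = {u : X1 × A0 | ‖u.1‖ ≤ (C.ry : ℝ)} ∩ {u : X1 × A0 | ‖u.2‖ ≤ (C.rh : ℝ)} := rfl
    rw [e]
    exact (isClosed_le (continuous_fst.norm) continuous_const).inter (isClosed_le (continuous_snd.norm) continuous_const)
  have hcl' : IsClosed B' := hcl.inter ((hS.c1.preimage continuous_fst).inter (hS.c0.preimage continuous_snd))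
  have hne : B'.Nonempty := by
    refine ⟨0, ⟨?_, ?_⟩, S1.zero_mem, S0.zero_mem⟩
    · change ‖(0 : X1)‖ ≤ _
      rw [norm_zero]
      exact_mod_cast c3
    · change ‖(0 : A0)‖ ≤ _
      rw [norm_zero]
      exact_mod_cast c4
  obtain ⟨U, hU, -, hU2, -, hU3⟩ := hF.fix hcl' hne (fun E hE u hu => ⟨⟨h3.sz u hu.1 E hE, h4.sz u hu.1 E hE⟩,
    (hS.mem hu.2.1 (S0.smul_mem hu.2.2 (C.sg : ℝ)) E).1, S0.smul_mem (hS.mem hu.2.1 (S0.smul_mem hu.2.2 (C.sg : ℝ)) E).2.1 _⟩)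
    (by exact_mod_cast c5) (by exact_mod_cast c6)
  have h7 : (0 : ℝ) < C.sg := by exact_mod_cast c2
  refine ⟨fun E => (U E).1, fun E => (C.sg : ℝ) • (U E).2, fun E hE => ?_, fun E hE E' hE' => ⟨?_, ?_⟩, hU3.fst, (hU3.snd).const_smul _⟩
  · obtain ⟨⟨h5, h55⟩, h6⟩ := hU E hE
    have e1 : (U E).1 = D.b + E • (D.y1 (D.pr (U E).1 (U E).1) + D.y2 ((C.sg : ℝ) • (U E).2)) := (congrArg Prod.fst h6).symm
    have e2 : (U E).2 = (1 / C.sg : ℝ) • D.Nh (U E).1 ((C.sg : ℝ) • (U E).2) E := (congrArg Prod.snd h6).symm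
    have e3 : (C.sg : ℝ) • (U E).2 = D.Nh (U E).1 ((C.sg : ℝ) • (U E).2) E := by
      conv_lhs => rw [e2]
      rw [smul_smul, mul_one_div_cancel h7.ne', one_smul]
    refine ⟨h55.1, S0.smul_mem h55.2 _, h5.1, ?_, ?_, h12.sz _ h5 E hE, h13.sz _ h5 E hE, h14.sz _ h5 E hE, h15.sz _ h5 E hE, e1, e3⟩
    · show ‖(C.sg : ℝ) • (U E).2‖ ≤ _
      rw [e3]
      exact h11.sz _ h5 E hE
    · show ‖(U E).1 - D.b‖ ≤ _
      have e4 : (U E).1 - D.b = E • (D.y1 (D.pr (U E).1 (U E).1) + D.y2 ((C.sg : ℝ) • (U E).2)) := by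
        conv_lhs => rw [e1]
        rw [add_sub_cancel_left]
      rw [e4, norm_smul, Real.norm_eq_abs, mul_comm]
      exact mul_le_mul_of_nonneg_right (h10.sz _ h5 E hE) (abs_nonneg _)
  · exact (norm_fst_le (U E - U E')).trans (hU2 E hE E' hE')
  · show ‖(C.sg : ℝ) • (U E).2 - (C.sg : ℝ) • (U E').2‖ ≤ _
    rw [← smul_sub, norm_smul, Real.norm_eq_abs, abs_of_pos h7]
    have h8 := (norm_snd_le (U E - U E')).trans (hU2 E hE E' hE')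
    have e5 : (C.sg * C.mE : ℝ) / (1 - C.th) * |E - E'| = C.sg * (C.mE / (1 - C.th) * |E - E'|) := by ring
    rw [e5]
    exact mul_le_mul_of_nonneg_left h8 h7.le

omit [NormOneClass A0] hC hI in
/-- back to the unknowns `y = E yh`, `f2 = E ^ 2 hh` -/
theorem Dat.unhat {E : ℝ} {y : X1} {k : A0} (e1 : y = D.b + E • (D.y1 (D.pr y y) + D.y2 k)) (e2 : k = D.Nh y k E) :
    E • y = E • D.b + (D.y1 (D.pr (E • y) (E • y)) + D.y2 (E ^ 2 • k)) ∧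
      E • D.zh y k E = E • D.zb + (D.z1 (D.pr (E • y) (E • y)) + D.z2 (E ^ 2 • k)) ∧
      E • D.lh y k E = E • D.lb + (D.l1 (D.pr (E • y) (E • y)) + D.l2 (E ^ 2 • k)) ∧
      E • D.ysh y k E = E • D.zh y k E + E • D.lh y k E + E ^ 2 • k - (D.si + D.si) * D.inc (E • y) ∧
      E • D.dh y k E = D.ch1 * D.inc (E • y) + D.ch * (E • D.ysh y k E) ∧
      E ^ 2 • k = N2a D.q3 D.p D.kap D.ch D.si (D.inc (E • y)) (E • D.ysh y k E) (E • D.zh y k E) (E • D.lh y k E) (D.gam (E • y) (E • y))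
        (D.ch * D.inc (E • y)) (E • D.dh y k E) (D.si * (D.ch * D.inc (E • y))) (D.a * D.inc (E • y)) := by
  have hp : D.pr (E • y) (E • y) = E ^ 2 • D.pr y y := by
    rw [map_smul, map_smul, LinearMap.smul_apply, smul_smul, sq]
  have hG : D.gam (E • y) (E • y) = E ^ 2 • D.gam y y := by
    rw [map_smul, map_smul, LinearMap.smul_apply, smul_smul, sq]
  refine ⟨?_, ?_, ?_, ?_, ?_, ?_⟩
  · rw [hp, map_smul, map_smul, ← smul_add, sq, mul_smul, ← smul_add, ← e1]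
  · rw [hp, map_smul, map_smul, ← smul_add, sq, mul_smul, ← smul_add]
    rfl
  · rw [hp, map_smul, map_smul, ← smul_add, sq, mul_smul, ← smul_add]
    rfl
  · unfold Dat.ysh
    rw [smul_sub, smul_add, smul_add, smul_smul E E k, ← sq, map_smul, mul_smul_comm]
  · unfold Dat.dh
    rw [smul_add, map_smul, mul_smul_comm, mul_smul_comm]
  · conv_lhs => rw [e2]
    unfold Dat.Nh
    rw [← N2a_hat, hG, map_smul, mul_smul_comm, mul_smul_comm, mul_smul_comm]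

end

end Pool.Agent.H50.SF
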