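import Pool.Agent.H50.SF.Eval

/-!
# SF.Ident : the pair form is the Helmholtz equation

`T` : `r ^ 2 r_s (Δ v + v - 1)` for `r = s + e`, `e = chi y`, `d = e_s`, `w1 = z + p e - (1/2) a y e`, `a = 1 - chi v0''`, `p = v0'`, `q3 = v0'''`.
-/

namespace Pool.Agent.H50.SF

theorem N2a_ident {s y ys z lz G c d v2 q3 p kap : ℝ} (hs : s ≠ 0) (h0 : s ^ 2 * q3 + 2 * s * v2 - 2 * p + s ^ 2 * p = 0) :
    (s + c * y) ^ 2 * (-ys + q3 * (c * y) + (1 + d) * (z + p * (c * y) - (1 - c * v2) * y * (c * y) / 2)) -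
        2 * (s + c * y) * (1 + d) * ((1 - c * v2) * y + p * (c * y) / s) + (1 + d) * (s ^ 2 * lz) + c * (1 + kap * y) * (s ^ 2 * G) =
      -s ^ 2 * ys - 2 * s * y + s ^ 2 * lz + s ^ 2 * z +
        s ^ 2 * N2a q3 p kap c (1 / s) y ys z lz G (c * y) d (1 / s * (c * y)) ((1 - c * v2) * y) := by
  unfold N2a
  simp only [smul_eq_mul]
  field_simp
  linear_combination (2 * c * y * s) * h0
end Pool.Agent.H50.SF
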