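import Pool.Agent.H50.SF.Conc

/-!
# SF.Lay : a solution in the spaces gives the structure `Lay`
-/

open Pool.Agent.H27.Leg Pool.Agent.H68.SC

namespace Pool.Agent.H50.SF

theorem nu_gt : 1 < SF.nu := by
  unfold SF.nu
  norm_num

theorem nu_pos : 0 < SF.nu := one_pos.trans nu_gt

theorem s0_pos (s : S0) : (0 : ℝ) < s := by
  have h1 : SF.R0 ≤ s := s.2.1
  have h2 : (1211 : ℝ) < SF.rho := SF.rho_gt'
  have h3 : SF.R0 = SF.rho - 1 / 4 := rfl
  linarith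

/-- polynomial factors -/
theorem wt_poly {nu1 : ℝ} (h : SF.nu < nu1) : ∃ C : ℝ, 0 ≤ C ∧ ∀ k : ℕ, SF.nu ^ k * (1 + (k : ℝ)) ^ 2 ≤ C * nu1 ^ k := by
  have h1 := nu_pos
  have h2 : 0 < nu1 := h1.trans h
  have h3 : 0 < SF.nu / nu1 := div_pos h1 h2
  have h4 : SF.nu / nu1 < 1 := (div_lt_one h2).2 h
  have h5 : Summable fun n : ℕ => (n : ℝ) ^ 2 * (SF.nu / nu1) ^ n :=
    summable_pow_mul_geometric_of_norm_lt_one 2 (by rw [Real.norm_eq_abs, abs_of_pos h3]; exact h4)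
  have h6 : ∀ n : ℕ, (n : ℝ) ^ 2 * (SF.nu / nu1) ^ n ≤ ∑' n : ℕ, (n : ℝ) ^ 2 * (SF.nu / nu1) ^ n := fun n =>
    h5.le_tsum n fun m _ => by positivity
  have h7 : 0 ≤ ∑' n : ℕ, (n : ℝ) ^ 2 * (SF.nu / nu1) ^ n := tsum_nonneg fun n => by positivity
  refine ⟨(∑' n : ℕ, (n : ℝ) ^ 2 * (SF.nu / nu1) ^ n) / (SF.nu / nu1), by positivity, fun k => ?_⟩
  have h8 := h6 (k + 1)
  rw [div_mul_eq_mul_div, le_div_iff₀ h3]
  have h9 : SF.nu ^ k * (1 + (k : ℝ)) ^ 2 * (SF.nu / nu1) = (((k + 1 : ℕ) : ℝ) ^ 2 * (SF.nu / nu1) ^ (k + 1)) * nu1 ^ k := by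
    push_cast
    rw [div_pow, pow_succ SF.nu, pow_succ nu1]
    field_simp
    ring
  rw [h9]
  exact mul_le_mul_of_nonneg_right h8 (by positivity)

theorem sum_wt {w : ℕ → ℝ} {nu1 : ℝ} (h : SF.nu < nu1) (hw : ∀ k, nu1 ^ k ≤ w k) (f : W L0 w) :
    Summable fun k : ℕ => SF.nu ^ k * ((1 + (k : ℝ)) ^ 2 * ‖co f k‖) := by
  obtain ⟨C, hC, h1⟩ := wt_poly h
  have h2 : 0 < nu1 := nu_pos.trans h
  have hp : ∀ k, 0 < w k := fun k => (pow_pos h2 k).trans_le (hw k)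
  have h3 := (hasSum_norm_co hp f).summable.mul_left C
  have h4 := nu_pos
  refine Summable.of_nonneg_of_le (fun k => by positivity) (fun k => ?_) h3
  calc SF.nu ^ k * ((1 + (k : ℝ)) ^ 2 * ‖co f k‖) = SF.nu ^ k * (1 + (k : ℝ)) ^ 2 * ‖co f k‖ := by ring
    _ ≤ C * nu1 ^ k * ‖co f k‖ := mul_le_mul_of_nonneg_right (h1 k) (norm_nonneg _)
    _ ≤ C * w k * ‖co f k‖ := mul_le_mul_of_nonneg_right (mul_le_mul_of_nonneg_left (hw k) hC) (norm_nonneg _)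
    _ = C * (w k * ‖co f k‖) := by ring

theorem P_le {x : ℝ} (hx : x ∈ SF.X0) (k : ℕ) : |(P k).eval x| ≤ SF.nu ^ k := by
  refine abs_le_pow k nu_gt.le ?_
  have h1 : |x| < SF.xi := abs_lt.2 hx
  have h2 : 2 * SF.xi ≤ SF.nu + 1 / SF.nu := by
    unfold SF.nu SF.xi
    norm_num
  linarith

/-- values are bounded by the norm -/
theorem ev_le {w : ℕ → ℝ} (hw : ∀ k, SF.nu ^ k ≤ w k) (f : W L0 w) (s : S0) {x : ℝ} (hx : x ∈ SF.X0) :
    |SF.ev (fun k => co f k s) x| ≤ ‖f‖ := by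
  have hp : ∀ k, 0 < w k := fun k => (pow_pos nu_pos k).trans_le (hw k)
  unfold SF.ev
  rw [← Real.norm_eq_abs]
  refine tsum_of_norm_bounded (hasSum_norm_co hp f) fun k => ?_
  rw [norm_mul, mul_comm]
  exact mul_le_mul ((P_le hx k).trans (hw k)) ((co f k).norm_coe_le_norm s) (norm_nonneg _) (hp k).le

theorem map_N2a {A A' : Type*} [NormedCommRing A] [NormedAlgebra ℝ A] [NormedCommRing A'] [NormedAlgebra ℝ A'] (φ : A →ₐ[ℝ] A')
    (q3 p kap c si y ys z lz G e d ep ay : A) :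
    φ (N2a q3 p kap c si y ys z lz G e d ep ay) = N2a (φ q3) (φ p) (φ kap) (φ c) (φ si) (φ y) (φ ys) (φ z) (φ lz) (φ G) (φ e) (φ d) (φ ep) (φ ay) := by
  unfold N2a
  simp only [map_add, map_mul, map_sub, map_one, map_smul]

variable {w0 w1 : ℕ → ℝ} [Fact (Wt w0)] {D : Dat (W L0 w1) (W L0 w0)} {nu1 : ℝ} {kapx : ℝ → ℝ}

/-- a solution -/
structure Pt (D : Dat (W L0 w1) (W L0 w0)) (E : ℝ) (y g : W L0 w1) (f z lz ys : W L0 w0) : Prop where
  ey : y = E • D.b + (D.y1 g + D.y2 f)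
  ez : z = E • D.zb + (D.z1 g + D.z2 f)
  el : lz = E • D.lb + (D.l1 g + D.l2 f)
  eys : ys = z + lz + f - (D.si + D.si) * D.inc y
  eg : g = D.pr y y
  ef : f = N2a D.q3 D.p D.kap D.ch D.si (D.inc y) ys z lz (D.gam y y) (D.ch * D.inc y) (D.ch1 * D.inc y + D.ch * ys)
    (D.si * (D.ch * D.inc y)) (D.a * D.inc y)
  evy : y ∈ evn L0 w1
  evg : g ∈ evn L0 w1
  evf : f ∈ evnAlg L0 w0
  evz : z ∈ evnAlg L0 w0
  ny : ‖y‖ ≤ 1 / 1000
  nys : ‖ys‖ ≤ 1 / 1000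

theorem co_evn {w : ℕ → ℝ} {f : W L0 w} (h : ∀ n, n % 2 = 1 → sc f n = 0) {k : ℕ} (hk : ¬ Even k) : co f k = 0 := by
  unfold co
  rw [h k (Nat.odd_iff.1 (Nat.not_even_iff_odd.1 hk)), smul_zero]

variable {E : ℝ} {y g : W L0 w1} {f z lz ys : W L0 w0}

theorem Pt.modes (h : Pt D E y g f z lz ys) (hS : Spec w0 w1 D nu1 kapx) (k : ℕ) : ∃ Z Y : ℝ → ℝ,
    (∀ s, 0 < s → HasDerivAt Z (-Y s - kapx s / 2 * SG.ext h0 (co g k) s) s) ∧
      (∀ s, 0 < s → HasDerivAt Y (-(2 / s * Y s) + (1 - (k : ℝ) * (k + 1) / s ^ 2) * Z s + SG.ext h0 (co f k) s) s) ∧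
      (∀ s : S0, Z s = co z k s) ∧ (∀ s : S0, Y s = co y k s) ∧ Z SF.rho = 0 ∧
      (Even k → k ≠ SF.ell → Y SF.R0 * jl k SF.R0 + Z SF.R0 * djl k SF.R0 = 0) ∧ (k = SF.ell → Y SF.rho = E) := by
  by_cases hk : Even k
  · obtain ⟨Z1, Y1, hP, hz, hy, hz0, hrob, hell⟩ := hS.green g f k hk
    by_cases hkl : k = SF.ell
    · subst hkl
      obtain ⟨Zb, Yb, hPb, hzb, hyb, hzb0, hyb0⟩ := hS.base'
      refine ⟨fun s => E * Zb s + Z1 s, fun s => E * Yb s + Y1 s, fun s hs => ?_, fun s hs => ?_, fun s => ?_, fun s => ?_, ?_,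
        fun _ h => absurd rfl h, fun _ => ?_⟩
      · refine (((hPb.h1 s hs).const_mul E).add (hP.h1 s hs)).congr_deriv ?_
        ring
      · refine (((hPb.h2 s hs).const_mul E).add (hP.h2 s hs)).congr_deriv ?_
        ring
      · rw [h.ez, co_add, co_smul, ContinuousMap.add_apply, ContinuousMap.smul_apply, smul_eq_mul, ← hzb, ← hz]
      · rw [h.ey, co_add, co_smul, ContinuousMap.add_apply, ContinuousMap.smul_apply, smul_eq_mul, ← hyb, ← hy]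
      · simp only [hzb0, hz0, mul_zero, add_zero]
      · simp only [hyb0, hell rfl, mul_one, add_zero]
    · obtain ⟨b1, b2⟩ := hS.base k hkl
      refine ⟨Z1, Y1, hP.h1, hP.h2, fun s => ?_, fun s => ?_, hz0, fun _ _ => ?_, fun h => absurd h hkl⟩
      · rw [h.ez, co_add, co_smul, b2, smul_zero, zero_add, ← hz]
      · rw [h.ey, co_add, co_smul, b1, smul_zero, zero_add, ← hy]
      · rw [hrob hkl]
        ring
  · have e1 : co g k = 0 := co_evn h.evg hk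
    have e2 : co f k = 0 := co_evn h.evf hk
    have e3 : co z k = 0 := co_evn h.evz hk
    have e4 : co y k = 0 := co_evn h.evy hk
    refine ⟨fun _ => 0, fun _ => 0, fun s _ => ?_, fun s _ => ?_, fun s => ?_, fun s => ?_, rfl, fun h => absurd h hk, fun hl => ?_⟩
    · rw [e1, SG.ext_zero]
      refine (hasDerivAt_const s (0 : ℝ)).congr_deriv ?_
      ring
    · rw [e2, SG.ext_zero]
      refine (hasDerivAt_const s (0 : ℝ)).congr_deriv ?_
      ring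
    · rw [e3]
      rfl
    · rw [e4]
      rfl
    · refine absurd ?_ hk
      rw [hl]
      decide

theorem Spec.nu1_pos (hS : Spec w0 w1 D nu1 kapx) : 0 < nu1 := nu_pos.trans hS.hnu

theorem Spec.w0_ge (hS : Spec w0 w1 D nu1 kapx) (k : ℕ) : nu1 ^ k ≤ w0 k := (hS.hw0 k).ge

theorem Spec.w1_ge (hS : Spec w0 w1 D nu1 kapx) (k : ℕ) : nu1 ^ k ≤ w1 k := (hS.w0_ge k).trans (hS.hw01 k)

theorem Spec.nu_le (hS : Spec w0 w1 D nu1 kapx) (k : ℕ) : SF.nu ^ k ≤ w0 k :=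
  (pow_le_pow_left₀ nu_pos.le hS.hnu.le k).trans (hS.w0_ge k)

theorem Spec.nu_le1 (hS : Spec w0 w1 D nu1 kapx) (k : ℕ) : SF.nu ^ k ≤ w1 k := (hS.nu_le k).trans (hS.hw01 k)

/-- the modes of `lz` -/
theorem Pt.lz_mode (h : Pt D E y g f z lz ys) (hS : Spec w0 w1 D nu1 kapx) (k : ℕ) (s : S0) :
    co lz k s = -(SF.lam k / (s : ℝ) ^ 2) * co z k s := by
  have e1 : co lz k s = E * co D.lb k s + co (D.l1 g + D.l2 f) k s := by
    rw [h.el, co_add, co_smul, ContinuousMap.add_apply, ContinuousMap.smul_apply, smul_eq_mul]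
  have e2 : co z k s = E * co D.zb k s + co (D.z1 g + D.z2 f) k s := by
    rw [h.ez, co_add, co_smul, ContinuousMap.add_apply, ContinuousMap.smul_apply, smul_eq_mul]
  rw [e1, e2, hS.lz, hS.lb]
  ring

/-- the modes of `ys` -/
theorem Pt.ys_mode (h : Pt D E y g f z lz ys) (hS : Spec w0 w1 D nu1 kapx) (k : ℕ) (s : S0) :
    co ys k s = SF.dy k s (co y k s) (co z k s) (co f k s) := by
  have e1 : co ((D.si + D.si) * D.inc y) k s = 2 / (s : ℝ) * co y k s := by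
    rw [add_mul, co_add, ContinuousMap.add_apply, hS.si, hS.inc]
    ring
  rw [h.eys, co_sub, co_add, co_add, ContinuousMap.sub_apply, ContinuousMap.add_apply, ContinuousMap.add_apply, e1, h.lz_mode hS]
  unfold SF.dy
  ring

theorem kap_R0 : SF.kap SF.R0 = 0 := by
  unfold SF.kap SF.chi SF.chi1
  rw [Pool.Agent.H36.SC.cut_of_le le_rfl, Pool.Agent.H36.SC.cut1_of_le le_rfl]
  ring

/-- the second source vanishes at the inner end -/
theorem Pt.f_R0 (h : Pt D E y g f z lz ys) (hS : Spec w0 w1 D nu1 kapx) (k : ℕ) : co f k sR = 0 := by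
  obtain ⟨ψ, hψ⟩ := hS.r0
  have hz : ∀ k, w0 k ≠ 0 := fun k => by
    rw [hS.hw0 k]
    exact (pow_pos hS.nu1_pos k).ne'
  have e0 : ∀ a : W L0 w0, (∀ k, co a k sR = 0) → ψ a = 0 := by
    intro a ha
    refine W.ext fun n => ?_
    rw [sc_eq_co hz, hψ, ha, smul_zero, sc_zero]
  have e1 : ψ D.ch = 0 := e0 _ hS.ch_R0
  have e2 : ψ D.ch1 = 0 := e0 _ hS.ch1_R0
  have e3 : ψ f = 0 := by
    rw [h.ef, map_N2a]
    unfold N2a
    simp only [map_mul, map_add, e1, e2, zero_mul, mul_zero, add_zero, sub_zero, smul_zero]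
  rw [← hψ, e3]
  unfold co
  rw [sc_zero, smul_zero]

theorem ext_s {a : L0} {s : ℝ} (hs : s ∈ SF.I0) : SG.ext h0 a s = a ⟨s, hs⟩ := SG.ext_apply h0 a hs

theorem Pt.eq2 (h : Pt D E y g f z lz ys) (hS : Spec w0 w1 D nu1 kapx) (s : S0) {x : ℝ} (hx : x ∈ SF.X0) :
    SF.ev (fun k => co f k s) x = SF.N2 s (SF.ev (fun k => co y k s) x) (SF.ev (fun k => co ys k s) x) (SF.ev (fun k => co z k s) x)
      (-SF.ev (fun k => SF.lam k * co z k s) x) ((1 - x ^ 2) * SF.ev1 (fun k => co y k s) x ^ 2) := by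
  obtain ⟨φ, hφ⟩ := hS.val s x hx
  have hs := s0_pos s
  have hs2 : (s : ℝ) ^ 2 ≠ 0 := by positivity
  have e1 : φ (D.inc y) = SF.ev (fun k => co y k s) x := by
    rw [hφ]
    simp only [hS.inc]
  have e2 : -SF.ev (fun k => SF.lam k * co z k s) x / (s : ℝ) ^ 2 = φ lz := by
    rw [hφ]
    have e3 : (fun k => co lz k s) = fun k => -(1 / (s : ℝ) ^ 2) * (SF.lam k * co z k s) := by
      funext k
      rw [h.lz_mode hS]
      ring
    rw [e3]
    unfold SF.ev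
    rw [show (fun k => -(1 / (s : ℝ) ^ 2) * (SF.lam k * co z k s) * (P k).eval x) =
      fun k => -(1 / (s : ℝ) ^ 2) * ((SF.lam k * co z k s) * (P k).eval x) from funext fun k => by ring, tsum_mul_left]
    ring
  have e4 : (1 - x ^ 2) * SF.ev1 (fun k => co y k s) x ^ 2 / (s : ℝ) ^ 2 = φ (D.gam y y) := by
    rw [hφ, hS.gam s x hx]
  rw [SF.N2_eq_N2a, e2, e4, ← hφ, ← e1, ← hφ, ← hφ, ← hS.v_q3 s x hx, ← hS.v_p s x hx, ← hS.v_kap s x hx, ← hS.v_ch s x hx,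
    ← hS.v_ch1 s x hx, ← hS.v_si s x hx, ← hS.v_a s x hx, ← hφ, ← hφ, ← hφ, ← hφ, ← hφ, ← hφ, ← hφ]
  conv_lhs => rw [h.ef, map_N2a]
  congr 1
  · rw [map_mul]
  · rw [map_add, map_mul, map_mul]
  · rw [map_mul, map_mul, hφ D.si, hS.v_si s x hx]
    ring
  · rw [map_mul]

theorem Pt.eq1 (h : Pt D E y g f z lz ys) (hS : Spec w0 w1 D nu1 kapx) (hp : ∀ a b, D.inc (D.pr a b) = D.inc a * D.inc b) (s : S0) {x : ℝ}
    (hx : x ∈ SF.X0) : SF.ev (fun k => co g k s) x = SF.ev (fun k => co y k s) x ^ 2 := by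
  obtain ⟨φ, hφ⟩ := hS.val s x hx
  have e1 : φ (D.inc y) = SF.ev (fun k => co y k s) x := by
    rw [hφ]
    simp only [hS.inc]
  have e2 : φ (D.inc g) = SF.ev (fun k => co g k s) x := by
    rw [hφ]
    simp only [hS.inc]
  rw [← e1, ← e2, h.eg, hp, map_mul, sq]

/-- the structure `Lay` of a solution -/
noncomputable def Pt.lay (h : Pt D E y g f z lz ys) (hS : Spec w0 w1 D nu1 kapx) (hp : ∀ a b, D.inc (D.pr a b) = D.inc a * D.inc b) :
    SF.Lay E where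
  y k s := SG.ext h0 (co y k) s
  z k s := SG.ext h0 (co z k) s
  f1 k s := kapx s / 2 * SG.ext h0 (co g k) s
  f2 k s := SG.ext h0 (co f k) s
  B k := (1 + (k : ℝ)) ^ 2 * (‖co y k‖ + ‖co z k‖ + 7 * ‖co g k‖ + ‖co f k‖)
  B_sum := by
    have s1 := sum_wt hS.hnu hS.w1_ge y
    have s2 := sum_wt hS.hnu hS.w0_ge z
    have s3 := (sum_wt hS.hnu hS.w1_ge g).mul_left 7
    have s4 := sum_wt hS.hnu hS.w0_ge f
    refine (((s1.add s2).add s3).add s4).congr fun k => ?_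
    ring
  y_le k s _ := by
    have h1 := SG.abs_ext_le h0 (co y k) s
    have h2 := norm_nonneg (co z k)
    have h3 := norm_nonneg (co g k)
    have h4 := norm_nonneg (co f k)
    have h5 : (0 : ℝ) ≤ k := Nat.cast_nonneg k
    have h6 : (1 + (k : ℝ)) ≤ (1 + (k : ℝ)) ^ 2 := by nlinarith
    calc (1 + (k : ℝ)) * |SG.ext h0 (co y k) s| ≤ (1 + (k : ℝ)) ^ 2 * ‖co y k‖ := mul_le_mul h6 h1 (abs_nonneg _) (by positivity)
      _ ≤ _ := mul_le_mul_of_nonneg_left (by linarith) (by positivity)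
  z_le k s _ := by
    have h1 := SG.abs_ext_le h0 (co z k) s
    have h2 := norm_nonneg (co y k)
    have h3 := norm_nonneg (co g k)
    have h4 := norm_nonneg (co f k)
    calc (1 + (k : ℝ)) ^ 2 * |SG.ext h0 (co z k) s| ≤ (1 + (k : ℝ)) ^ 2 * ‖co z k‖ := mul_le_mul_of_nonneg_left h1 (by positivity)
      _ ≤ _ := mul_le_mul_of_nonneg_left (by linarith) (by positivity)
  f1_le k s hs := by
    have h1 := SG.abs_ext_le h0 (co g k) s
    have h2 := norm_nonneg (co y k)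
    have h3 := norm_nonneg (co z k)
    have h4 := norm_nonneg (co f k)
    have h5 : (0 : ℝ) ≤ k := Nat.cast_nonneg k
    have h6 : (1 : ℝ) ≤ (1 + (k : ℝ)) ^ 2 := by nlinarith
    have h7 := hS.kap_le s hs
    have h8 : 0 ≤ ‖co y k‖ + ‖co z k‖ + 7 * ‖co g k‖ + ‖co f k‖ := by positivity
    rw [abs_mul]
    calc |kapx s / 2| * |SG.ext h0 (co g k) s| ≤ 7 * ‖co g k‖ := mul_le_mul h7 h1 (abs_nonneg _) (by norm_num)
      _ ≤ ‖co y k‖ + ‖co z k‖ + 7 * ‖co g k‖ + ‖co f k‖ := by linarith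
      _ ≤ _ := le_mul_of_one_le_left h8 h6
  f2_le k s _ := by
    have h1 := SG.abs_ext_le h0 (co f k) s
    have h2 := norm_nonneg (co y k)
    have h3 := norm_nonneg (co z k)
    have h4 := norm_nonneg (co g k)
    have h5 : (0 : ℝ) ≤ k := Nat.cast_nonneg k
    have h6 : (1 : ℝ) ≤ (1 + (k : ℝ)) ^ 2 := by nlinarith
    have h8 : 0 ≤ ‖co y k‖ + ‖co z k‖ + 7 * ‖co g k‖ + ‖co f k‖ := by positivity
    calc |SG.ext h0 (co f k) s| ≤ ‖co y k‖ + ‖co z k‖ + 7 * ‖co g k‖ + ‖co f k‖ := by linarith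
      _ ≤ _ := le_mul_of_one_le_left h8 h6
  f1_cont k := ((hS.kap_cont.div_const 2).mul (SG.ext_cont h0 (co g k))).continuousOn
  f2_cont k := (SG.ext_cont h0 (co f k)).continuousOn
  z_deriv k s hs := by
    obtain ⟨Z, Y, h1, -, h3, h4, -⟩ := h.modes hS k
    have h5 := (h1 s (s0_pos ⟨s, hs⟩)).hasDerivWithinAt (s := SF.I0)
    refine (h5.congr (fun t ht => ?_) ?_).congr_deriv ?_
    · rw [ext_s ht]
      exact (h3 ⟨t, ht⟩).symm
    · rw [ext_s hs]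
      exact (h3 ⟨s, hs⟩).symm
    · rw [show Y s = SG.ext h0 (co y k) s by rw [ext_s hs]; exact h4 ⟨s, hs⟩]
  y_deriv k s hs := by
    obtain ⟨Z, Y, -, h2, h3, h4, -⟩ := h.modes hS k
    have h5 := (h2 s (s0_pos ⟨s, hs⟩)).hasDerivWithinAt (s := SF.I0)
    refine (h5.congr (fun t ht => ?_) ?_).congr_deriv ?_
    · rw [ext_s ht]
      exact (h4 ⟨t, ht⟩).symm
    · rw [ext_s hs]
      exact (h4 ⟨s, hs⟩).symm
    · rw [show Y s = SG.ext h0 (co y k) s by rw [ext_s hs]; exact h4 ⟨s, hs⟩,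
        show Z s = SG.ext h0 (co z k) s by rw [ext_s hs]; exact h3 ⟨s, hs⟩]
      unfold SF.dy SF.lam
      ring
  z_rho k := by
    obtain ⟨Z, Y, -, -, h3, -, h5, -⟩ := h.modes hS k
    rw [ext_s (Set.right_mem_Icc.2 h0)]
    exact (h3 sr).symm.trans h5
  f1_R0 k := by
    rw [hS.hkap _ (Set.left_mem_Icc.2 h0), kap_R0, zero_div, zero_mul]
  f2_R0 k := by
    rw [ext_s (Set.left_mem_Icc.2 h0)]
    exact h.f_R0 hS k
  odd k hk s hs := by
    have hk' : ¬ Even k := Nat.not_even_iff_odd.2 hk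
    rw [co_evn h.evg hk', co_evn h.evf hk', co_evn h.evz hk', co_evn h.evy hk']
    simp only [SG.ext_zero, mul_zero, and_self]
  amp := by
    obtain ⟨Z, Y, -, -, -, h4, -, -, h7⟩ := h.modes hS SF.ell
    rw [ext_s (Set.right_mem_Icc.2 h0)]
    exact (h4 sr).symm.trans (h7 rfl)
  reg k hk hkl := by
    obtain ⟨Z, Y, -, -, h3, h4, -, h6, -⟩ := h.modes hS k
    rw [ext_s (Set.left_mem_Icc.2 h0), ext_s (Set.left_mem_Icc.2 h0)]
    have h7 := h6 hk hkl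
    rw [show Y SF.R0 = co y k sR from h4 sR, show Z SF.R0 = co z k sR from h3 sR] at h7
    exact h7
  eq1 s hs x hx := by
    have h1 := h.eq1 hS hp ⟨s, hs⟩ hx
    have e1 : (fun k => kapx s / 2 * SG.ext h0 (co g k) s) = fun k => SF.kap s / 2 * co g k ⟨s, hs⟩ := by
      funext k
      rw [ext_s hs, hS.hkap s hs]
    have e2 : (fun k => SG.ext h0 (co y k) s) = fun k => co y k ⟨s, hs⟩ := funext fun k => ext_s hs
    rw [e1, e2, ← h1]
    unfold SF.ev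
    rw [← tsum_mul_left]
    exact tsum_congr fun k => by ring
  eq2 s hs x hx := by
    have h1 := h.eq2 hS ⟨s, hs⟩ hx
    have e2 : (fun k => SG.ext h0 (co y k) s) = fun k => co y k ⟨s, hs⟩ := funext fun k => ext_s hs
    have e3 : (fun k => SG.ext h0 (co f k) s) = fun k => co f k ⟨s, hs⟩ := funext fun k => ext_s hs
    have e4 : (fun k => SG.ext h0 (co z k) s) = fun k => co z k ⟨s, hs⟩ := funext fun k => ext_s hs
    have e5 : (fun k => SF.lam k * SG.ext h0 (co z k) s) = fun k => SF.lam k * co z k ⟨s, hs⟩ := funext fun k => by rw [ext_s hs]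
    have e6 : (fun k => SF.dy k s (SG.ext h0 (co y k) s) (SG.ext h0 (co z k) s) (SG.ext h0 (co f k) s)) = fun k => co ys k ⟨s, hs⟩ :=
      funext fun k => by rw [ext_s hs, ext_s hs, ext_s hs, h.ys_mode hS k ⟨s, hs⟩]
    rw [e2, e3, e4, e5, e6]
    exact h1
  small s hs x hx := by
    have e2 : (fun k => SG.ext h0 (co y k) s) = fun k => co y k ⟨s, hs⟩ := funext fun k => ext_s hs
    have e6 : (fun k => SF.dy k s (SG.ext h0 (co y k) s) (SG.ext h0 (co z k) s) (SG.ext h0 (co f k) s)) = fun k => co ys k ⟨s, hs⟩ :=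
      funext fun k => by rw [ext_s hs, ext_s hs, ext_s hs, h.ys_mode hS k ⟨s, hs⟩]
    rw [e2, e6]
    exact ⟨(ev_le hS.nu_le1 y ⟨s, hs⟩ hx).trans h.ny, (ev_le hS.nu_le ys ⟨s, hs⟩ hx).trans h.nys⟩

end Pool.Agent.H50.SF
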